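import Mathlib

set_option autoImplicit false

/-!
# The Lie bracket acts on functions as the commutator of derivations
-/

namespace Pool.Agent.H65.GManifold

open Bundle Manifold VectorField Set Filter
open scoped ContDiff Manifold Topology

noncomputable section

variable {E : Type*} [NormedAddCommGroup E] [NormedSpace ℝ E] [CompleteSpace E]
  {H : Type*} [TopologicalSpace H] {I : ModelWithCorners ℝ E H} [I.Boundaryless]
  {M : Type*} [TopologicalSpace M] [ChartedSpace H M] [IsManifold I ∞ M]
  {F : Type*} [NormedAddCommGroup F] [NormedSpace ℝ F]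

omit [CompleteSpace E] [IsManifold I ∞ M] in
/-- The derivative of a vector valued function, in the preferred chart. -/
lemma mvfderiv_eq_chart {f : M → F} {x : M} (hf : MDiffAt f x) :
    mvfderiv I f x = fderiv ℝ (f ∘ (extChartAt I x).symm) (extChartAt I x x) := by
  rw [hf.mvfderiv, I.range_eq_univ, fderivWithin_univ]
  rfl

omit [CompleteSpace E] [IsManifold I ∞ M] in
lemma contDiffAt_chart {f : M → F} {x : M} {n : ℕ∞ω} (hf : ContMDiffAt I 𝓘(ℝ, F) n f x) :
    ContDiffAt ℝ n (f ∘ (extChartAt I x).symm) (extChartAt I x x) := by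
  have h := (contMDiffAt_iff.1 hf).2
  rw [I.range_eq_univ, contDiffWithinAt_univ] at h
  exact h

omit [CompleteSpace E] in
/-- `f` differentiated along `Y`, read in the chart at `x`. -/
lemma chart_deriv_along {f : M → F} {x : M} (hf : ContMDiffAt I 𝓘(ℝ, F) 1 f x)
    (Y : ∀ x : M, TangentSpace I x) :
    (fun y => mvfderiv I f y (Y y)) ∘ (extChartAt I x).symm =ᶠ[𝓝 (extChartAt I x x)]
      fun z => fderiv ℝ (f ∘ (extChartAt I x).symm) z
        (mpullbackWithin 𝓘(ℝ, E) I (extChartAt I x).symm Y (range I) z) := by
  have h1 : ∀ᶠ y in 𝓝 x, MDiffAt f y := by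
    have := (contMDiffAt_iff_contMDiffAt_nhds (by simp)).1 hf
    filter_upwards [this] with y hy
    exact hy.mdifferentiableAt one_ne_zero
  have h2 : ∀ᶠ z in 𝓝 (extChartAt I x x), MDiffAt f ((extChartAt I x).symm z) := by
    have hc : ContinuousAt (extChartAt I x).symm (extChartAt I x x) :=
      continuousAt_extChartAt_symm x
    have := hc.tendsto
    rw [extChartAt_to_inv] at this
    exact this.eventually h1
  have h3 : ∀ᶠ z in 𝓝 (extChartAt I x x), z ∈ (extChartAt I x).target :=
    extChartAt_target_mem_nhds x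
  filter_upwards [h2, h3] with z hz2 hz3
  have hsymm : MDiffAt (extChartAt I x).symm z := by
    have := mdifferentiableWithinAt_extChartAt_symm (I := I) hz3
    rwa [I.range_eq_univ, mdifferentiableWithinAt_univ] at this
  have hinv := isInvertible_mfderivWithin_extChartAt_symm (I := I) hz3
  have hY : (mfderiv[range I] (extChartAt I x).symm z)
      (mpullbackWithin 𝓘(ℝ, E) I (extChartAt I x).symm Y (range I) z) =
      Y ((extChartAt I x).symm z) := by
    rw [mpullbackWithin_apply]
    exact hinv.self_apply_inverse _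
  rw [I.range_eq_univ, mfderivWithin_univ] at hY
  have hcomp := mfderiv_comp (I := 𝓘(ℝ, E)) (I' := I) (I'' := 𝓘(ℝ, F)) z hz2 hsymm
  rw [← mfderiv_eq_fderiv]
  change mvfderiv I f ((extChartAt I x).symm z) (Y ((extChartAt I x).symm z)) = _
  rw [I.range_eq_univ, hcomp]
  change _ = (mfderiv I 𝓘(ℝ, F) f ((extChartAt I x).symm z))
    ((mfderiv 𝓘(ℝ, E) I (extChartAt I x).symm z)
      (mpullbackWithin 𝓘(ℝ, E) I (extChartAt I x).symm Y univ z))
  rw [hY]
  rfl

omit [I.Boundaryless] [CompleteSpace E] in
/-- The pulled back vector field at the centre of the chart. -/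
lemma mpullback_center (x : M) (Y : ∀ x : M, TangentSpace I x) :
    mpullbackWithin 𝓘(ℝ, E) I (extChartAt I x).symm Y (range I) (extChartAt I x x) = Y x := by
  rw [mpullbackWithin_apply]
  have h := mfderivWithin_extChartAt_symm_inverse_apply (I := I) (Y x)
  rw [extChartAt_to_inv]
  exact h

variable (I) in
/-- A vector field read in the chart at `x`. -/
def localVF (x : M) (Y : ∀ x : M, TangentSpace I x) : E → E :=
  mpullbackWithin 𝓘(ℝ, E) I (extChartAt I x).symm Y (range I)

omit [I.Boundaryless] [CompleteSpace E] in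
lemma localVF_center (x : M) (Y : ∀ x : M, TangentSpace I x) :
    localVF I x Y (extChartAt I x x) = Y x := mpullback_center x Y

lemma differentiableAt_localVF {x : M} {Y : ∀ x : M, TangentSpace I x}
    (hY : MDiffAt (T% Y) x) :
    DifferentiableAt ℝ (localVF I x Y) (extChartAt I x x) := by
  have : IsManifold I 2 M := IsManifold.of_le (n := ∞) (by norm_cast)
  have h := MDifferentiableWithinAt.differentiableWithinAt_mpullbackWithin_vectorField
    (I := I) (s := univ) (x := x) (V := Y) (by rwa [mdifferentiableWithinAt_univ])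
  rw [preimage_univ, univ_inter] at h
  have h' : DifferentiableWithinAt ℝ (localVF I x Y) (range I) (extChartAt I x x) := h
  rwa [I.range_eq_univ, differentiableWithinAt_univ] at h'

/-- If `f` is `C²` at `x` and `Y` is differentiable at `x`, then `y ↦ df_y (Y y)` is
differentiable at `x`, and its derivative is given in the chart at `x` by the product rule. -/
lemma mdifferentiableAt_deriv_along {f : M → F} {x : M} (hf : ContMDiffAt I 𝓘(ℝ, F) 2 f x)
    {Y : ∀ x : M, TangentSpace I x} (hY : MDiffAt (T% Y) x) :
    MDiffAt (fun y => mvfderiv I f y (Y y)) x ∧ ∀ v : E,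
      mvfderiv I (fun y => mvfderiv I f y (Y y)) x v =
        fderiv ℝ (fderiv ℝ (f ∘ (extChartAt I x).symm)) (extChartAt I x x) v
          (localVF I x Y (extChartAt I x x)) +
        fderiv ℝ (f ∘ (extChartAt I x).symm) (extChartAt I x x)
          (fderiv ℝ (localVF I x Y) (extChartAt I x x) v) := by
  set f' := f ∘ (extChartAt I x).symm with hf'
  have hfc : ContDiffAt ℝ 2 f' (extChartAt I x x) := contDiffAt_chart hf
  have hfd : DifferentiableAt ℝ (fderiv ℝ f') (extChartAt I x x) :=
    (hfc.fderiv_right (m := 1) (by norm_num)).differentiableAt one_ne_zero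
  have hYd : DifferentiableAt ℝ (localVF I x Y) (extChartAt I x x) := differentiableAt_localVF hY
  have hev := chart_deriv_along (I := I) (hf.of_le (by norm_num : (1 : ℕ∞ω) ≤ 2)) Y
  have hd : HasFDerivAt (fun z => fderiv ℝ f' z (localVF I x Y z))
      ((fderiv ℝ f' (extChartAt I x x)).comp (fderiv ℝ (localVF I x Y) (extChartAt I x x)) +
        (fderiv ℝ (fderiv ℝ f') (extChartAt I x x)).flip (localVF I x Y (extChartAt I x x)))
      (extChartAt I x x) :=
    hfd.hasFDerivAt.clm_apply hYd.hasFDerivAt
  have hd2 := hd.congr_of_eventuallyEq hev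
  -- differentiability on the manifold
  have hmd : MDiffAt (fun y => mvfderiv I f y (Y y)) x := by
    have h1 : MDiffAt (((fun y => mvfderiv I f y (Y y)) ∘ (extChartAt I x).symm) ∘
        (extChartAt I x)) x :=
      MDifferentiableAt.comp x hd2.differentiableAt.mdifferentiableAt
        (mdifferentiableAt_extChartAt (mem_chart_source H x))
    refine h1.congr_of_eventuallyEq ?_
    have h3 : ∀ᶠ y in 𝓝 x, y ∈ (extChartAt I x).source := extChartAt_source_mem_nhds x
    filter_upwards [h3] with y hy
    have key : ∀ u : M → F, u y = ((u ∘ (extChartAt I x).symm) ∘ (extChartAt I x)) y := by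
      intro u
      simp only [Function.comp_apply, (extChartAt I x).left_inv hy]
    exact key (fun y => mvfderiv I f y (Y y))
  refine ⟨hmd, fun v => ?_⟩
  rw [mvfderiv_eq_chart hmd, hd2.fderiv]
  exact add_comm _ _

omit [CompleteSpace E] in
set_option backward.isDefEq.respectTransparency false in
lemma mlieBracket_eq_chart (x : M) (X Y : ∀ x : M, TangentSpace I x) :
    mlieBracket I X Y x =
      fderiv ℝ (localVF I x Y) (extChartAt I x x) (localVF I x X (extChartAt I x x)) -
      fderiv ℝ (localVF I x X) (extChartAt I x x) (localVF I x Y (extChartAt I x x)) := by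
  rw [← mlieBracketWithin_univ, mlieBracketWithin_apply, mfderiv_extChartAt_self,
    ContinuousLinearMap.inverse_id]
  rw [preimage_univ, univ_inter]
  change lieBracketWithin ℝ (localVF I x X) (localVF I x Y) (range I) (extChartAt I x x) = _
  rw [I.range_eq_univ, lieBracketWithin_univ]
  rfl

/-- The Lie bracket acts on `C²` functions as the commutator of the derivations. -/
lemma mvfderiv_mlieBracket {f : M → F} {x : M} (hf : ContMDiffAt I 𝓘(ℝ, F) 2 f x)
    {X Y : ∀ x : M, TangentSpace I x} (hX : MDiffAt (T% X) x) (hY : MDiffAt (T% Y) x) :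
    mvfderiv I f x (mlieBracket I X Y x) =
      mvfderiv I (fun y => mvfderiv I f y (Y y)) x (X x) -
      mvfderiv I (fun y => mvfderiv I f y (X y)) x (Y x) := by
  have e1 := (mdifferentiableAt_deriv_along hf hY).2 (localVF I x X (extChartAt I x x))
  have e2 := (mdifferentiableAt_deriv_along hf hX).2 (localVF I x Y (extChartAt I x x))
  have hmd : MDiffAt f x := hf.mdifferentiableAt two_ne_zero
  have hfc : ContDiffAt ℝ 2 (f ∘ (extChartAt I x).symm) (extChartAt I x x) := contDiffAt_chart hf
  have hsymm : IsSymmSndFDerivAt ℝ (f ∘ (extChartAt I x).symm) (extChartAt I x x) :=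
    hfc.isSymmSndFDerivAt (by simp)
  have e3 : mvfderiv I f x (mlieBracket I X Y x) =
      fderiv ℝ (f ∘ (extChartAt I x).symm) (extChartAt I x x)
      (fderiv ℝ (localVF I x Y) (extChartAt I x x) (localVF I x X (extChartAt I x x)) -
      fderiv ℝ (localVF I x X) (extChartAt I x x) (localVF I x Y (extChartAt I x x))) := by
    rw [mlieBracket_eq_chart, mvfderiv_eq_chart hmd]
    rfl
  rw [e3, ← localVF_center x X, ← localVF_center x Y, e1, e2, map_sub,
    hsymm (localVF I x X (extChartAt I x x)) (localVF I x Y (extChartAt I x x))]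
  abel

end

end Pool.Agent.H65.GManifold
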