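import Pool.Agent.H65.GManifold.Defs
import Pool.Agent.H65.GManifold.Bracket

set_option autoImplicit false

/-!
# The round metric of the unit sphere has positive curvature
-/

namespace Pool.Agent.H65.GManifold

open Bundle Manifold VectorField Set Filter Metric Module
open scoped ContDiff Manifold Topology RealInnerProductSpace

noncomputable section

variable {E : Type*} [NormedAddCommGroup E] [InnerProductSpace ℝ E] {n : ℕ}
  [Fact (finrank ℝ E = n + 1)]

variable (E n) in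
/-- The unit sphere. -/
abbrev Sph : Type _ := sphere (0 : E) 1

/-- The differential of the inclusion of the sphere. -/
def DD (x : sphere (0 : E) 1) : TangentSpace (𝓡 n) x →L[ℝ] E :=
  mvfderiv (𝓡 n) ((↑) : sphere (0 : E) 1 → E) x

lemma DD_injective (x : sphere (0 : E) 1) : Function.Injective (DD (n := n) x) :=
  injective_mvfderiv_subtypeVal_sphere x

lemma DD_inner (x : sphere (0 : E) 1) (v : TangentSpace (𝓡 n) x) : ⟪(x : E), DD x v⟫ = 0 := by
  have h : DD x v ∈ (ℝ ∙ (x : E))ᗮ := by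
    rw [← range_mvfderiv_subtypeVal (n := n) x]
    exact ⟨v, rfl⟩
  exact Submodule.mem_orthogonal_singleton_iff_inner_right.1 h

lemma DD_surj (x : sphere (0 : E) 1) {w : E} (hw : ⟪(x : E), w⟫ = 0) :
    ∃ v : TangentSpace (𝓡 n) x, DD x v = w := by
  have h : w ∈ (ℝ ∙ (x : E))ᗮ := Submodule.mem_orthogonal_singleton_iff_inner_right.2 hw
  rw [← range_mvfderiv_subtypeVal (n := n) x] at h
  exact h

lemma inner_self_sphere (x : sphere (0 : E) 1) : ⟪(x : E), (x : E)⟫ = 1 := by
  rw [real_inner_self_eq_norm_sq, norm_eq_of_mem_sphere]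
  norm_num

lemma exists_leftInv (x : sphere (0 : E) 1) : ∃ L : E →L[ℝ] TangentSpace (𝓡 n) x,
    (∀ v, L (DD x v) = v) ∧ ∀ w, DD x (L w) = w - ⟪(x : E), w⟫ • (x : E) := by
  have : FiniteDimensional ℝ E := FiniteDimensional.of_fact_finrank_eq_succ n
  obtain ⟨g, hg⟩ := LinearMap.exists_leftInverse_of_injective (DD (n := n) x).toLinearMap
    (LinearMap.ker_eq_bot.2 (DD_injective x))
  have hg' : ∀ v, g (DD x v) = v := fun v => LinearMap.congr_fun hg v
  let P : E →ₗ[ℝ] E := LinearMap.id - (innerₛₗ ℝ (x : E)).smulRight (x : E)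
  have hP : ∀ w, P w = w - ⟪(x : E), w⟫ • (x : E) := fun w => rfl
  have hPx : ∀ w, ⟪(x : E), P w⟫ = 0 := by
    intro w
    rw [hP, inner_sub_right, inner_smul_right, inner_self_sphere]
    ring
  refine ⟨LinearMap.toContinuousLinearMap (g ∘ₗ P : E →ₗ[ℝ] EuclideanSpace ℝ (Fin n)), ?_, ?_⟩
  · intro v
    change g (P (DD x v)) = v
    rw [hP, DD_inner, zero_smul, sub_zero, hg']
  · intro w
    change DD x (g (P w)) = _
    obtain ⟨v, hv⟩ := DD_surj (n := n) x (hPx w)
    rw [← hv, hg', hv, hP]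

/-- A left inverse of the differential of the inclusion. -/
def LL (x : sphere (0 : E) 1) : E →L[ℝ] TangentSpace (𝓡 n) x := (exists_leftInv x).choose

lemma LL_DD (x : sphere (0 : E) 1) (v : TangentSpace (𝓡 n) x) : LL x (DD x v) = v :=
  (exists_leftInv x).choose_spec.1 v

lemma DD_LL (x : sphere (0 : E) 1) (w : E) :
    DD x (LL (n := n) x w) = w - ⟪(x : E), w⟫ • (x : E) :=
  (exists_leftInv x).choose_spec.2 w

/-- A vector field on the sphere as an `E`-valued function. -/
def ss (σ : ∀ x : sphere (0 : E) 1, TangentSpace (𝓡 n) x) (x : sphere (0 : E) 1) : E :=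
  DD x (σ x)

lemma inner_ss (σ : ∀ x : sphere (0 : E) 1, TangentSpace (𝓡 n) x) (x : sphere (0 : E) 1) :
    ⟪(x : E), ss σ x⟫ = 0 := DD_inner x _

lemma mdiffAt_ss {σ : ∀ x : sphere (0 : E) 1, TangentSpace (𝓡 n) x} {x : sphere (0 : E) 1}
    (hσ : MDiffAt (T% σ) x) : MDifferentiableAt (𝓡 n) 𝓘(ℝ, E) (ss σ) x :=
  (mdifferentiableAt_deriv_along (contMDiff_coe_sphere (m := 2) x) hσ).1

/-- The Levi-Civita connection of the sphere. -/
def covSph : CovariantDerivative (𝓡 n) (EuclideanSpace ℝ (Fin n))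
    (fun x : sphere (0 : E) 1 => TangentSpace (𝓡 n) x) where
  toFun σ x := LL x ∘L mvfderiv (𝓡 n) (ss σ) x
  isCovariantDerivativeOnUniv :=
    { add := by
        intro σ σ' x hσ hσ' _
        have h : ss (σ + σ') = ss σ + ss σ' := by
          funext y
          simp [ss]
        rw [h, mvfderiv_add (mdiffAt_ss hσ) (mdiffAt_ss hσ')]
        simp
      leibniz := by
        intro σ g x hσ hg _
        have h : ss (g • σ) = g • ss σ := by
          funext y
          simp [ss]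
        rw [h, mvfderiv_smul hg (mdiffAt_ss hσ)]
        ext v
        simp [ss, LL_DD] }

/-- The differential of the inclusion, in the trivialization at `x₀`. -/
def AA (x₀ x : sphere (0 : E) 1) : EuclideanSpace ℝ (Fin n) →L[ℝ] E :=
  DD x ∘L (trivializationAt (EuclideanSpace ℝ (Fin n))
    (fun x : sphere (0 : E) 1 => TangentSpace (𝓡 n) x) x₀).symmL ℝ x

set_option backward.isDefEq.respectTransparency false in
lemma contMDiffAt_AA (x₀ : sphere (0 : E) 1) :
    ContMDiffAt (𝓡 n) 𝓘(ℝ, EuclideanSpace ℝ (Fin n) →L[ℝ] E) ∞ (AA (n := n) x₀) x₀ := by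
  have h := ContMDiffAt.mfderiv_const (m := ∞) (n := ∞)
    (contMDiff_coe_sphere (E := E) (n := n) (m := ∞) x₀) (by simp)
  refine h.congr_of_eventuallyEq (Filter.Eventually.of_forall fun x => ?_)
  simp only [inTangentCoordinates, ContinuousLinearMap.inCoordinates,
    TangentBundle.continuousLinearMapAt_model_space]
  rfl

variable (E) in
/-- The inner product as a continuous bilinear map. -/
def innerE : E →L[ℝ] E →L[ℝ] ℝ := innerSL ℝ

/-- The bilinear form `c² ⟨A u, A v⟩`. -/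
def bil (c : ℝ) {F : Type*} [NormedAddCommGroup F] [NormedSpace ℝ F] (A : F →L[ℝ] E) :
    F →L[ℝ] F →L[ℝ] ℝ :=
  c ^ 2 • ((ContinuousLinearMap.precomp ℝ A) ∘L innerE E ∘L A)

omit [Fact (finrank ℝ E = n + 1)] in
lemma bil_apply (c : ℝ) {F : Type*} [NormedAddCommGroup F] [NormedSpace ℝ F] (A : F →L[ℝ] E)
    (u v : F) : bil c A u v = c ^ 2 * ⟪A u, A v⟫ := rfl

/-- The round metric, scaled by `c`. -/
def gForm (c : ℝ) (x : sphere (0 : E) 1) :
    TangentSpace (𝓡 n) x →L[ℝ] TangentSpace (𝓡 n) x →L[ℝ] ℝ :=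
  bil (F := EuclideanSpace ℝ (Fin n)) c (DD (n := n) x)

lemma gForm_apply (c : ℝ) (x : sphere (0 : E) 1) (u v : TangentSpace (𝓡 n) x) :
    gForm c x u v = c ^ 2 * ⟪DD x u, DD x v⟫ := rfl

set_option backward.isDefEq.respectTransparency false in
lemma contMDiff_gForm (c : ℝ) :
    ContMDiff (𝓡 n) ((𝓡 n).prod 𝓘(ℝ, EuclideanSpace ℝ (Fin n) →L[ℝ]
      EuclideanSpace ℝ (Fin n) →L[ℝ] ℝ)) ∞
      (fun b : sphere (0 : E) 1 => TotalSpace.mk' (EuclideanSpace ℝ (Fin n) →L[ℝ]
        EuclideanSpace ℝ (Fin n) →L[ℝ] ℝ)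
        (E := fun b : sphere (0 : E) 1 =>
          TangentSpace (𝓡 n) b →L[ℝ] TangentSpace (𝓡 n) b →L[ℝ] ℝ) b (gForm c b)) := by
  intro x₀
  rw [contMDiffAt_section]
  have h1 : ContMDiffAt (𝓡 n) 𝓘(ℝ, EuclideanSpace ℝ (Fin n) →L[ℝ]
      EuclideanSpace ℝ (Fin n) →L[ℝ] ℝ) ∞ (fun x => bil c (AA (n := n) x₀ x)) x₀ := by
    have hA := contMDiffAt_AA (n := n) x₀
    have h2 := ContMDiffAt.clm_comp (hA.clm_precomp (F₃ := ℝ))
      (ContMDiffAt.clm_comp (contMDiffAt_const (c := innerE E)) hA)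
    have h3 : ContMDiffAt (𝓡 n) 𝓘(ℝ, ℝ) ∞ (fun _ : sphere (0 : E) 1 => c ^ 2) x₀ :=
      contMDiffAt_const
    exact h3.smul h2
  refine h1.congr_of_eventuallyEq ?_
  have hb : ∀ᶠ x in 𝓝 x₀, x ∈ (trivializationAt (EuclideanSpace ℝ (Fin n))
      (fun x : sphere (0 : E) 1 => TangentSpace (𝓡 n) x) x₀).baseSet :=
    (trivializationAt (EuclideanSpace ℝ (Fin n))
      (fun x : sphere (0 : E) 1 => TangentSpace (𝓡 n) x) x₀).open_baseSet.mem_nhds
      (mem_baseSet_trivializationAt _ _ _)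
  filter_upwards [hb] with x hx
  ext u v
  simp only [hom_trivializationAt_apply, ContinuousLinearMap.inCoordinates]
  rw [bil_apply]
  simp only [ContinuousLinearMap.comp_apply]
  have hx' : x ∈ (trivializationAt (EuclideanSpace ℝ (Fin n) →L[ℝ] ℝ)
      (fun x : sphere (0 : E) 1 => TangentSpace (𝓡 n) x →L[ℝ] ℝ) x₀).baseSet := ⟨hx, trivial⟩
  rw [Trivialization.continuousLinearMapAt_apply_of_mem ℝ _ hx']
  simp only [hom_trivializationAt_apply, ContinuousLinearMap.inCoordinates]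
  have ht : ∀ r : ℝ, (Trivialization.continuousLinearMapAt ℝ
      (trivializationAt ℝ (Bundle.Trivial (sphere (0 : E) 1) ℝ) x₀) x) r = r := by
    intro r
    simp
  exact ht _


lemma gForm_symm (c : ℝ) (x : sphere (0 : E) 1) (u v : TangentSpace (𝓡 n) x) :
    gForm c x u v = gForm c x v u := by
  rw [gForm_apply, gForm_apply, real_inner_comm]

lemma gForm_self (c : ℝ) (x : sphere (0 : E) 1) (u : TangentSpace (𝓡 n) x) :
    gForm c x u u = c ^ 2 * ‖DD x u‖ ^ 2 := by
  rw [gForm_apply, real_inner_self_eq_norm_sq]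

/-- The round Riemannian metric, with lengths scaled by `c`. -/
def gSph (c : ℝ) (hc : 0 < c) : ContMDiffRiemannianMetric (𝓡 n) ∞ (EuclideanSpace ℝ (Fin n))
    (fun x : sphere (0 : E) 1 => TangentSpace (𝓡 n) x) where
  inner x := gForm c x
  symm x u v := gForm_symm c x u v
  pos x v hv := by
    rw [gForm_self]
    have h : DD x v ≠ 0 := by
      intro h
      exact hv (DD_injective x (by rw [h, map_zero]))
    have := norm_pos_iff.2 h
    positivity
  isVonNBounded x := by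
    let f : EuclideanSpace ℝ (Fin n) →L[ℝ] E := DD x
    have hK : ∃ K : ℝ, 0 < K ∧ ∀ v : EuclideanSpace ℝ (Fin n), ‖v‖ ≤ K * ‖f v‖ := by
      have hf : LinearMap.ker f.toLinearMap = ⊥ := LinearMap.ker_eq_bot.2 (DD_injective x)
      obtain ⟨K, hK, h⟩ := LinearMap.exists_antilipschitzWith f.toLinearMap hf
      refine ⟨K, by exact_mod_cast hK, fun v => ?_⟩
      have := h.le_mul_dist v 0
      simpa using this
    obtain ⟨K, hK0, hK⟩ := hK
    have hsub : {v : EuclideanSpace ℝ (Fin n) | gForm c x v v < 1} ⊆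
        Metric.ball (0 : EuclideanSpace ℝ (Fin n)) (K * (1 / c) + 1) := by
      intro v hv
      have hv' : c ^ 2 * ‖f v‖ ^ 2 < 1 := lt_of_eq_of_lt (gForm_self c x v).symm hv
      have h1 : c * ‖f v‖ < 1 := by
        have h0 : 0 ≤ c * ‖f v‖ := by positivity
        nlinarith
      have h2 : ‖f v‖ < 1 / c := by
        rw [lt_div_iff₀ hc]
        linarith
      have h3 := hK v
      rw [mem_ball_zero_iff]
      nlinarith [mul_lt_mul_of_pos_left h2 hK0]
    exact (NormedSpace.isVonNBounded_ball ℝ (EuclideanSpace ℝ (Fin n)) _).subset hsub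
  contMDiff := contMDiff_gForm c

end

end Pool.Agent.H65.GManifold
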