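import Pool.Agent.H65.GManifold.Group
import Pool.Agent.H65.GManifold.SphereCurv

set_option autoImplicit false

/-!
# The action of `S¹ × S³` on `S⁷`
-/

namespace Pool.Agent.H65.GManifold

open Bundle Manifold Set Filter Metric Module MulAction
open scoped ContDiff Manifold Topology Quaternion

noncomputable section

/-- `ℍ²` with its Euclidean norm. -/
abbrev HH : Type := WithLp 2 (ℍ[ℝ] × ℍ[ℝ])

instance factHH : Fact (finrank ℝ HH = 7 + 1) := ⟨by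
  rw [LinearEquiv.finrank_eq (WithLp.linearEquiv 2 ℝ (ℍ[ℝ] × ℍ[ℝ])), finrank_prod,
    Quaternion.finrank_eq_four]⟩

/-- The sphere `S⁷ ⊆ ℍ²`. -/
abbrev S7 : Type := sphere (0 : HH) 1

/-- The ambient formula `(z q₁ u*, q₂ u*)`. -/
def actV (z : ℂ) (u : ℍ[ℝ]) (p : HH) : HH :=
  WithLp.toLp 2 ((z : ℍ[ℝ]) * p.fst * star u, p.snd * star u)

@[simp] lemma actV_fst (z : ℂ) (u : ℍ[ℝ]) (p : HH) :
    (actV z u p).fst = (z : ℍ[ℝ]) * p.fst * star u := rfl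

@[simp] lemma actV_snd (z : ℂ) (u : ℍ[ℝ]) (p : HH) : (actV z u p).snd = p.snd * star u := rfl

lemma HH.ext' {p q : HH} (h1 : p.fst = q.fst) (h2 : p.snd = q.snd) : p = q := by
  apply (WithLp.equiv 2 (ℍ[ℝ] × ℍ[ℝ])).injective
  exact Prod.ext h1 h2

lemma norm_sq_HH (p : HH) : ‖p‖ ^ 2 = ‖p.fst‖ ^ 2 + ‖p.snd‖ ^ 2 :=
  WithLp.prod_norm_sq_eq_of_L2 p

lemma norm_coe_S1 (z : S1) : ‖(((z : ℂ)) : ℍ[ℝ])‖ = 1 := by
  have h : ‖(z : ℂ)‖ = 1 := norm_eq_of_mem_sphere z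
  have h2 : ‖(((z : ℂ)) : ℍ[ℝ])‖ * ‖(((z : ℂ)) : ℍ[ℝ])‖ = 1 := by
    rw [← Quaternion.normSq_eq_norm_mul_self, Quaternion.normSq_def']
    have h3 : ‖(z : ℂ)‖ ^ 2 = (z : ℂ).re ^ 2 + (z : ℂ).im ^ 2 := by
      rw [← Complex.normSq_eq_norm_sq, Complex.normSq_apply]
      ring
    rw [h] at h3
    simp
    linarith
  nlinarith [norm_nonneg (((z : ℂ)) : ℍ[ℝ])]

lemma norm_coe_S3 (u : S3) : ‖(u : ℍ[ℝ])‖ = 1 := norm_eq_of_mem_sphere u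

lemma norm_actV (z : S1) (u : S3) (p : HH) : ‖actV (z : ℂ) (u : ℍ[ℝ]) p‖ = ‖p‖ := by
  have h : ‖actV (z : ℂ) (u : ℍ[ℝ]) p‖ ^ 2 = ‖p‖ ^ 2 := by
    rw [norm_sq_HH, norm_sq_HH, actV_fst, actV_snd, norm_mul, norm_mul, norm_mul, norm_star,
      norm_coe_S1, norm_coe_S3]
    ring
  exact (pow_left_inj₀ (norm_nonneg _) (norm_nonneg _) two_ne_zero).1 h

/-- The action of `S¹ × S³` on `S⁷`: `(z, u) • (q₁, q₂) = (z q₁ u⁻¹, q₂ u⁻¹)`. -/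
@[reducible] def act : MulAction GG S7 where
  smul g p := ⟨actV (g.1 : ℂ) (g.2 : ℍ[ℝ]) p, by
    rw [mem_sphere_zero_iff_norm, norm_actV]
    exact norm_eq_of_mem_sphere p⟩
  one_smul p := by
    apply Subtype.ext
    change actV ((1 : S1) : ℂ) ((1 : S3) : ℍ[ℝ]) p = p
    apply HH.ext' <;> simp
  mul_smul g h p := by
    apply Subtype.ext
    change actV ((g.1 * h.1 : S1) : ℂ) ((g.2 * h.2 : S3) : ℍ[ℝ]) p =
      actV (g.1 : ℂ) (g.2 : ℍ[ℝ]) (actV (h.1 : ℂ) (h.2 : ℍ[ℝ]) p)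
    apply HH.ext' <;> simp [mul_assoc]

attribute [local instance] act

lemma coe_smul (g : GG) (p : S7) : ((g • p : S7) : HH) = actV (g.1 : ℂ) (g.2 : ℍ[ℝ]) p := rfl

/-- The inclusion of `ℂ` in `ℍ` as a continuous linear map. -/
def cC : ℂ →L[ℝ] ℍ[ℝ] := LinearMap.toContinuousLinearMap Quaternion.ofComplex.toLinearMap

lemma cC_apply (z : ℂ) : cC z = (z : ℍ[ℝ]) := rfl

/-- Conjugation on `ℍ` as a continuous linear map. -/
def cS : ℍ[ℝ] →L[ℝ] ℍ[ℝ] := LinearMap.toContinuousLinearMap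
  { toFun := star
    map_add' := star_add
    map_smul' := fun r x => by simp }

lemma cS_apply (u : ℍ[ℝ]) : cS u = star u := rfl

/-- The linear isomorphism between `HH` and `ℍ × ℍ`. -/
def cE : HH ≃L[ℝ] ℍ[ℝ] × ℍ[ℝ] := WithLp.prodContinuousLinearEquiv 2 ℝ ℍ[ℝ] ℍ[ℝ]

lemma actV_eq (z : ℂ) (u : ℍ[ℝ]) (p : HH) :
    actV z u p = cE.symm (cC z * (cE p).1 * cS u, (cE p).2 * cS u) := rfl

lemma contDiff_actV {m : ℕ∞ω} :
    ContDiff ℝ m (fun q : (ℂ × ℍ[ℝ]) × HH => actV q.1.1 q.1.2 q.2) := by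
  have h : (fun q : (ℂ × ℍ[ℝ]) × HH => actV q.1.1 q.1.2 q.2) =
      fun q => cE.symm (cC q.1.1 * (cE q.2).1 * cS q.1.2, (cE q.2).2 * cS q.1.2) := rfl
  rw [h]
  fun_prop

/-- The inclusion of the group in `ℂ × ℍ`. -/
def incG (g : GG) : ℂ × ℍ[ℝ] := ((g.1 : ℂ), (g.2 : ℍ[ℝ]))

lemma contMDiff_incG {m : ℕ∞ω} : ContMDiff IGG 𝓘(ℝ, ℂ × ℍ[ℝ]) m incG := by
  have h1 : ContMDiff IGG 𝓘(ℝ, ℂ) m (fun g : GG => (g.1 : ℂ)) :=
    (contMDiff_coe_sphere (E := ℂ) (n := 1)).comp contMDiff_fst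
  have h2 : ContMDiff IGG 𝓘(ℝ, ℍ[ℝ]) m (fun g : GG => (g.2 : ℍ[ℝ])) :=
    (contMDiff_coe_sphere (E := ℍ[ℝ]) (n := 3)).comp contMDiff_snd
  exact h1.prodMk_space h2

/-- The action is smooth. -/
theorem contMDiff_act : ContMDiff (IGG.prod (𝓡 7)) (𝓡 7) ∞ (fun q : GG × S7 => q.1 • q.2) := by
  have h1 : ContMDiff (IGG.prod (𝓡 7)) 𝓘(ℝ, (ℂ × ℍ[ℝ]) × HH) ∞
      (fun q : GG × S7 => (incG q.1, (q.2 : HH))) :=
    (contMDiff_incG.comp contMDiff_fst).prodMk_space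
      ((contMDiff_coe_sphere (E := HH) (n := 7)).comp contMDiff_snd)
  have h3 := (contDiff_actV (m := ∞)).contMDiff.comp h1
  exact h3.codRestrict_sphere (n := 7) (fun q => (q.1 • q.2).2)

/-! ### Orbits -/

lemma smul_eq_iff (z : S1) (u : S3) (p q : S7) : ((z, u) : GG) • p = q ↔
    ((z : ℂ) : ℍ[ℝ]) * (p : HH).fst * star (u : ℍ[ℝ]) = (q : HH).fst ∧
      (p : HH).snd * star (u : ℍ[ℝ]) = (q : HH).snd := by
  constructor
  · rintro rfl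
    exact ⟨rfl, rfl⟩
  · rintro ⟨h1, h2⟩
    exact Subtype.ext (HH.ext' h1 h2)

lemma star_eq_one {u : S3} (h : star (u : ℍ[ℝ]) = 1) : u = 1 := by
  apply Subtype.ext
  rw [← star_star (u : ℍ[ℝ]), h]
  simp

lemma coe_eq_one {z : S1} (h : ((z : ℂ) : ℍ[ℝ]) = 1) : z = 1 := by
  apply Subtype.ext
  have h1 := congrArg (fun q : ℍ[ℝ] => q.re) h
  have h2 := congrArg (fun q : ℍ[ℝ] => q.imI) h
  apply Complex.ext
  · simpa using h1
  · simpa using h2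

/-- Off the two special orbits, the isotropy group is trivial. -/
lemma stabilizer_generic {p : S7} (h1 : (p : HH).fst ≠ 0) (h2 : (p : HH).snd ≠ 0) :
    stabilizer GG p = ⊥ := by
  rw [eq_bot_iff]
  rintro ⟨z, u⟩ h
  rw [mem_stabilizer_iff, smul_eq_iff] at h
  obtain ⟨h3, h4⟩ := h
  have hu : star (u : ℍ[ℝ]) = 1 := mul_left_cancel₀ h2 (by rw [h4, mul_one])
  rw [hu, mul_one] at h3
  have hz : ((z : ℂ) : ℍ[ℝ]) = 1 := mul_right_cancel₀ h1 (by rw [h3, one_mul])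
  rw [coe_eq_one hz, star_eq_one hu]
  exact Subgroup.mem_bot.2 rfl

/-- On the orbit `q₁ = 0` the isotropy group is `S¹ × 1`. -/
lemma mem_stabilizer_snd {p : S7} (h1 : (p : HH).fst = 0) (g : GG) :
    g ∈ stabilizer GG p ↔ g.2 = 1 := by
  obtain ⟨z, u⟩ := g
  have h2 : (p : HH).snd ≠ 0 := by
    intro h2
    have := norm_sq_HH (p : HH)
    rw [h1, h2, norm_eq_of_mem_sphere] at this
    simp at this
  rw [mem_stabilizer_iff, smul_eq_iff, h1]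
  constructor
  · rintro ⟨-, h4⟩
    exact star_eq_one (mul_left_cancel₀ h2 (by rw [h4, mul_one]))
  · intro h
    change u = 1 at h
    rw [h]
    simp

/-- On the orbit `q₂ = 0`. -/
lemma mem_stabilizer_fst {p : S7} (h2 : (p : HH).snd = 0) (g : GG) :
    g ∈ stabilizer GG p ↔
      ((g.1 : ℂ) : ℍ[ℝ]) * (p : HH).fst = (p : HH).fst * (g.2 : ℍ[ℝ]) := by
  obtain ⟨z, u⟩ := g
  rw [mem_stabilizer_iff, smul_eq_iff, h2]
  have hu : star (u : ℍ[ℝ]) * (u : ℍ[ℝ]) = 1 := by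
    rw [← S3.coe_inv', ← Metric.unitSphere.coe_mul, inv_mul_cancel]
    rfl
  have hu' : (u : ℍ[ℝ]) * star (u : ℍ[ℝ]) = 1 := by
    rw [← S3.coe_inv', ← Metric.unitSphere.coe_mul, mul_inv_cancel]
    rfl
  constructor
  · rintro ⟨h3, -⟩
    change ((z : ℂ) : ℍ[ℝ]) * (p : HH).fst = (p : HH).fst * (u : ℍ[ℝ])
    rw [← h3, mul_assoc (((z : ℂ) : ℍ[ℝ]) * (p : HH).fst), hu, mul_one, h3]
  · intro h
    change ((z : ℂ) : ℍ[ℝ]) * (p : HH).fst = (p : HH).fst * (u : ℍ[ℝ]) at h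
    refine ⟨?_, by simp⟩
    rw [h, mul_assoc, hu', mul_one]

end

end Pool.Agent.H65.GManifold
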