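import Mathlib

set_option autoImplicit false

/-!
# Compact `G`-manifolds, types of orbits, and almost nonnegative sectional curvature

Definitions for the problem about `G`-manifolds with finitely many non-principal orbits and two
different singular orbits.
-/

namespace Pool.Agent.H65.GManifold

open Bundle Manifold MulAction
open scoped ContDiff Manifold ENNReal

noncomputable section

/-! ### Orbits -/

section Orbits

variable {EG : Type*} [NormedAddCommGroup EG] [NormedSpace ℝ EG]
  {HG : Type*} [TopologicalSpace HG] (IG : ModelWithCorners ℝ EG HG)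
  {EM : Type*} [NormedAddCommGroup EM] [NormedSpace ℝ EM]
  {HM : Type*} [TopologicalSpace HM] (IM : ModelWithCorners ℝ EM HM)
  (G : Type*) [Group G] [TopologicalSpace G] [ChartedSpace HG G]
  {M : Type*} [TopologicalSpace M] [ChartedSpace HM M] [MulAction G M]

/-- The orbit of `x` is principal: the isotropy group of `x` is, up to conjugation, contained in
every isotropy group (recall that `stabilizer G (g • y) = g (stabilizer G y) g⁻¹`). -/
def IsPrincipal (x : M) : Prop :=
  ∀ y : M, ∃ g : G, stabilizer G x ≤ stabilizer G (g • y)

/-- The dimension of the orbit of `x`: the rank of the differential at `1` of `g ↦ g • x`. -/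
def orbitDim (x : M) : ℕ :=
  Module.finrank ℝ
    (LinearMap.range (mfderiv IG IM (fun g : G => g • x) (1 : G)).toLinearMap)

/-- The orbit of `x` is exceptional: non-principal, of the same dimension as a principal orbit. -/
def IsExceptional (x : M) : Prop :=
  ¬ IsPrincipal G x ∧ ∃ y : M, IsPrincipal G y ∧ orbitDim IG IM G x = orbitDim IG IM G y

/-- The orbit of `x` is singular: neither principal nor exceptional. -/
def IsSingular (x : M) : Prop :=
  ¬ IsPrincipal G x ∧ ¬ IsExceptional IG IM G x

end Orbits

/-! ### Curvature -/

section Curvature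

variable {E : Type*} [NormedAddCommGroup E] [NormedSpace ℝ E]
  {H : Type*} [TopologicalSpace H] {I : ModelWithCorners ℝ E H}
  {M : Type*} [TopologicalSpace M] [ChartedSpace H M] [IsManifold I ∞ M]

/-- `∇ = cov` is the Levi-Civita connection of the Riemannian metric `g`: it is compatible with
`g` and torsion-free. Here `cov Y x v` is `∇_v Y`, for `v` tangent at `x`. -/
structure IsLeviCivita (g : ContMDiffRiemannianMetric I ∞ E (fun x : M => TangentSpace I x))
    (cov : CovariantDerivative I E (fun x : M => TangentSpace I x)) : Prop where
  metric : ∀ (X Y Z : ∀ x : M, TangentSpace I x) (x : M),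
    MDiffAt (T% X) x → MDiffAt (T% Y) x → MDiffAt (T% Z) x →
    mvfderiv I (fun y => g.inner y (Y y) (Z y)) x (X x) =
      g.inner x (cov Y x (X x)) (Z x) + g.inner x (Y x) (cov Z x (X x))
  torsion_free : ∀ (X Y : ∀ x : M, TangentSpace I x) (x : M),
    MDiffAt (T% X) x → MDiffAt (T% Y) x →
    cov Y x (X x) - cov X x (Y x) = VectorField.mlieBracket I X Y x

/-- The curvature `R(X, Y) Z = ∇_X ∇_Y Z - ∇_Y ∇_X Z - ∇_[X, Y] Z` of a connection, at `x`. -/
def curvature (cov : CovariantDerivative I E (fun x : M => TangentSpace I x))
    (X Y Z : ∀ x : M, TangentSpace I x) (x : M) : TangentSpace I x :=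
  cov (fun y => cov Z y (Y y)) x (X x) - cov (fun y => cov Z y (X y)) x (Y x)
    - cov Z x (VectorField.mlieBracket I X Y x)

/-- All sectional curvatures of the Riemannian metric `g` are at least `k`: for the Levi-Civita
connection of `g` and all smooth vector fields `X`, `Y`, one has
`k (|X|² |Y|² - ⟨X, Y⟩²) ≤ ⟨R(X, Y) Y, X⟩` at every point. -/
def SectionalCurvatureGE (g : ContMDiffRiemannianMetric I ∞ E (fun x : M => TangentSpace I x))
    (k : ℝ) : Prop :=
  ∃ cov : CovariantDerivative I E (fun x : M => TangentSpace I x), IsLeviCivita g cov ∧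
    ∀ X Y : ∀ x : M, TangentSpace I x,
      ContMDiff I I.tangent ∞ (T% X) → ContMDiff I I.tangent ∞ (T% Y) → ∀ x : M,
      k * (g.inner x (X x) (X x) * g.inner x (Y x) (Y x) - (g.inner x (X x) (Y x)) ^ 2) ≤
        g.inner x (curvature cov X Y Y x) (X x)

/-- The diameter of `M` for the Riemannian distance of `g` (the infimum of the lengths of `C¹`
paths) is at most `d`. -/
def DiameterLE (g : ContMDiffRiemannianMetric I ∞ E (fun x : M => TangentSpace I x))
    (d : ℝ≥0∞) : Prop :=
  letI : RiemannianBundle (fun x : M => TangentSpace I x) := ⟨g.toRiemannianMetric⟩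
  ∀ x y : M, riemannianEDist I x y ≤ d

variable (I M) in
/-- `M` admits almost nonnegative sectional curvature: for every `ε > 0` there is a smooth
Riemannian metric with `sec ≥ -ε` and `diam ≤ 1`. -/
def AdmitsAlmostNonnegativeCurvature : Prop :=
  ∀ ε : ℝ, 0 < ε → ∃ g : ContMDiffRiemannianMetric I ∞ E (fun x : M => TangentSpace I x),
    SectionalCurvatureGE g (-ε) ∧ DiameterLE g 1

end Curvature

/-! ### Compact `G`-manifolds -/

/-- A compact `G`-manifold: a compact connected Lie group `G` acting smoothly and effectively on
a compact connected smooth manifold `M` (`G` and `M` are finite-dimensional, Hausdorff and without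
boundary). -/
structure CompactGManifold where
  /-- The model vector space of `G`. -/
  EG : Type
  /-- The model space of `G`. -/
  HG : Type
  /-- The group. -/
  G : Type
  /-- The model vector space of `M`. -/
  EM : Type
  /-- The model space of `M`. -/
  HM : Type
  /-- The manifold. -/
  M : Type
  [normedEG : NormedAddCommGroup EG]
  [spaceEG : NormedSpace ℝ EG]
  [finiteEG : FiniteDimensional ℝ EG]
  [topHG : TopologicalSpace HG]
  /-- The model of `G`. -/
  IG : ModelWithCorners ℝ EG HG
  [boundarylessG : IG.Boundaryless]
  [groupG : Group G]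
  [topG : TopologicalSpace G]
  [chartsG : ChartedSpace HG G]
  [lieG : LieGroup IG ∞ G]
  [compactG : CompactSpace G]
  [connectedG : ConnectedSpace G]
  [hausdorffG : T2Space G]
  [normedEM : NormedAddCommGroup EM]
  [spaceEM : NormedSpace ℝ EM]
  [finiteEM : FiniteDimensional ℝ EM]
  [topHM : TopologicalSpace HM]
  /-- The model of `M`. -/
  IM : ModelWithCorners ℝ EM HM
  [boundarylessM : IM.Boundaryless]
  [topM : TopologicalSpace M]
  [chartsM : ChartedSpace HM M]
  [manifoldM : IsManifold IM ∞ M]
  [compactM : CompactSpace M]
  [connectedM : ConnectedSpace M]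
  [hausdorffM : T2Space M]
  [action : MulAction G M]
  /-- The action is effective. -/
  [effective : FaithfulSMul G M]
  /-- The action is smooth. -/
  smooth : ContMDiff (IG.prod IM) IM ∞ (fun p : G × M => p.1 • p.2)

namespace CompactGManifold

attribute [instance] normedEG spaceEG finiteEG topHG boundarylessG groupG topG chartsG lieG
  compactG connectedG hausdorffG normedEM spaceEM finiteEM topHM boundarylessM topM chartsM
  manifoldM compactM connectedM hausdorffM action effective

variable (X : CompactGManifold)

/-- The cohomogeneity of `X` is `k`: there are principal orbits, and each has codimension `k`. -/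
def HasCohomogeneity (k : ℕ) : Prop :=
  (∃ x : X.M, IsPrincipal X.G x) ∧
    ∀ x : X.M, IsPrincipal X.G x → orbitDim X.IG X.IM X.G x + k = Module.finrank ℝ X.EM

/-- The orbits of `x` and `y` are of different type, in a strong sense: no automorphism of the
group `G` maps the isotropy group of `x` onto the isotropy group of a point of the orbit of `y`
(these are the conjugates of the isotropy group of `y`). -/
def DifferentOrbits (x y : X.M) : Prop :=
  ∀ (φ : X.G ≃* X.G) (g : X.G),
    (stabilizer X.G x).map φ.toMonoidHom ≠ stabilizer X.G (g • y)

end CompactGManifold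

end

end Pool.Agent.H65.GManifold
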