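import Mathlib

set_option autoImplicit false

/-!
# The compact connected Lie group `S¹ × S³`
-/

namespace Pool.Agent.H65.GManifold

open Bundle Manifold Set Filter Metric Module
open scoped ContDiff Manifold Topology Quaternion

noncomputable section

instance factC : Fact (finrank ℝ ℂ = 1 + 1) := ⟨Complex.finrank_real_complex⟩

instance factH : Fact (finrank ℝ ℍ[ℝ] = 3 + 1) := ⟨Quaternion.finrank_eq_four⟩

/-- The unit circle. -/
abbrev S1 : Type := sphere (0 : ℂ) 1

/-- The group of unit quaternions. -/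
abbrev S3 : Type := sphere (0 : ℍ[ℝ]) 1

lemma S3.coe_inv' (u : S3) : ((u⁻¹ : S3) : ℍ[ℝ]) = star (u : ℍ[ℝ]) := by
  have h1 : ‖(u : ℍ[ℝ])‖ = 1 := norm_eq_of_mem_sphere u
  rw [Metric.unitSphere.coe_inv, Quaternion.inv_def, Quaternion.normSq_eq_norm_mul_self, h1]
  simp

lemma S1.coe_inv' (u : S1) : ((u⁻¹ : S1) : ℂ) = star (u : ℂ) := by
  have h1 : ‖(u : ℂ)‖ = 1 := norm_eq_of_mem_sphere u
  rw [Metric.unitSphere.coe_inv, Complex.inv_def, Complex.normSq_eq_norm_sq, h1]
  simp

/-- Conjugation is smooth, in a finite-dimensional star module. -/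
lemma contDiff_star (K : Type*) [NormedAddCommGroup K] [InnerProductSpace ℝ K]
    [FiniteDimensional ℝ K] [StarAddMonoid K] (h : ∀ (r : ℝ) (x : K), star (r • x) = r • star x) :
    ContDiff ℝ ω (fun x : K => star x) := by
  let L : K →ₗ[ℝ] K :=
    { toFun := star
      map_add' := star_add
      map_smul' := fun r x => h r x }
  exact L.toContinuousLinearMap.contDiff

instance lieGroupS1 : LieGroup (𝓡 1) ω S1 where
  contMDiff_mul := by
    apply ContMDiff.codRestrict_sphere
    let c : S1 → ℂ := (↑)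
    have h₂ : ContMDiff (𝓘(ℝ, ℂ).prod 𝓘(ℝ, ℂ)) 𝓘(ℝ, ℂ) ω fun z : ℂ × ℂ => z.fst * z.snd := by
      rw [contMDiff_iff]
      exact ⟨continuous_mul, fun x y => contDiff_mul.contDiffOn⟩
    suffices h₁ : ContMDiff _ _ _ (Prod.map c c) from
      h₂.comp h₁
    apply ContMDiff.prodMap <;> exact contMDiff_coe_sphere
  contMDiff_inv := by
    have h : ContMDiff (𝓡 1) 𝓘(ℝ, ℂ) ω (fun x : S1 => star (x : ℂ)) :=
      (contDiff_star ℂ (fun r x => by simp)).contMDiff.comp contMDiff_coe_sphere
    have h' := h.codRestrict_sphere (n := 1) (fun x => by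
      rw [mem_sphere_zero_iff_norm, norm_star]
      exact norm_eq_of_mem_sphere x)
    have e : (fun x : S1 => x⁻¹) = Set.codRestrict (fun x : S1 => star (x : ℂ)) _ (fun x => by
        rw [mem_sphere_zero_iff_norm, norm_star]
        exact norm_eq_of_mem_sphere x) := by
      funext x
      exact Subtype.ext (S1.coe_inv' x)
    rw [e]
    exact h'

instance lieGroupS3 : LieGroup (𝓡 3) ω S3 where
  contMDiff_mul := by
    apply ContMDiff.codRestrict_sphere
    let c : S3 → ℍ[ℝ] := (↑)
    have h₂ : ContMDiff (𝓘(ℝ, ℍ[ℝ]).prod 𝓘(ℝ, ℍ[ℝ])) 𝓘(ℝ, ℍ[ℝ]) ω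
        fun z : ℍ[ℝ] × ℍ[ℝ] => z.fst * z.snd := by
      rw [contMDiff_iff]
      exact ⟨continuous_mul, fun x y => contDiff_mul.contDiffOn⟩
    suffices h₁ : ContMDiff _ _ _ (Prod.map c c) from
      h₂.comp h₁
    apply ContMDiff.prodMap <;> exact contMDiff_coe_sphere
  contMDiff_inv := by
    have h : ContMDiff (𝓡 3) 𝓘(ℝ, ℍ[ℝ]) ω (fun x : S3 => star (x : ℍ[ℝ])) :=
      (contDiff_star ℍ[ℝ] (fun r x => by simp)).contMDiff.comp contMDiff_coe_sphere
    have h' := h.codRestrict_sphere (n := 3) (fun x => by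
      rw [mem_sphere_zero_iff_norm, norm_star]
      exact norm_eq_of_mem_sphere x)
    have e : (fun x : S3 => x⁻¹) = Set.codRestrict (fun x : S3 => star (x : ℍ[ℝ])) _ (fun x => by
        rw [mem_sphere_zero_iff_norm, norm_star]
        exact norm_eq_of_mem_sphere x) := by
      funext x
      exact Subtype.ext (S3.coe_inv' x)
    rw [e]
    exact h'

instance connectedS1 : ConnectedSpace S1 := by
  have h : IsConnected (sphere (0 : ℂ) 1) := by
    apply isConnected_sphere _ _ zero_le_one
    rw [Complex.rank_real_complex]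
    norm_num
  exact isConnected_iff_connectedSpace.1 h

instance connectedS3 : ConnectedSpace S3 := by
  have h : IsConnected (sphere (0 : ℍ[ℝ]) 1) := by
    apply isConnected_sphere _ _ zero_le_one
    rw [Quaternion.rank_eq_four]
    norm_num
  exact isConnected_iff_connectedSpace.1 h

/-- The group `S¹ × S³`. -/
abbrev GG : Type := S1 × S3

/-- The model of `S¹ × S³`. -/
abbrev IGG : ModelWithCorners ℝ (EuclideanSpace ℝ (Fin 1) × EuclideanSpace ℝ (Fin 3))
    (ModelProd (EuclideanSpace ℝ (Fin 1)) (EuclideanSpace ℝ (Fin 3))) := (𝓡 1).prod (𝓡 3)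

example : LieGroup IGG ω GG := inferInstance
example : LieGroup IGG ∞ GG := inferInstance
example : CompactSpace GG := inferInstance
example : ConnectedSpace GG := inferInstance
example : T2Space GG := inferInstance

end

end Pool.Agent.H65.GManifold
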