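import Pool.Agent.H65.GManifold.Action

set_option autoImplicit false

/-!
# Orbit dimensions of the action of `S¹ × S³` on `S⁷`
-/

namespace Pool.Agent.H65.GManifold

open Bundle Manifold Set Filter Metric Module MulAction
open scoped ContDiff Manifold Topology Quaternion

noncomputable section

attribute [local instance] act

/-- The derivative of `(z, u) ↦ actV z u p` at `(1, 1)`. -/
def LV (p : HH) : ℂ × ℍ[ℝ] →L[ℝ] HH :=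
  (cE.symm : ℍ[ℝ] × ℍ[ℝ] →L[ℝ] HH) ∘L
    ((((ContinuousLinearMap.mul ℝ ℍ[ℝ]).flip (cE p).1) ∘L cC ∘L
      ContinuousLinearMap.fst ℝ ℂ ℍ[ℝ] +
      (ContinuousLinearMap.mul ℝ ℍ[ℝ] (cE p).1) ∘L cS ∘L ContinuousLinearMap.snd ℝ ℂ ℍ[ℝ]).prod
      ((ContinuousLinearMap.mul ℝ ℍ[ℝ] (cE p).2) ∘L cS ∘L ContinuousLinearMap.snd ℝ ℂ ℍ[ℝ]))

lemma LV_apply (p : HH) (a : ℂ) (b : ℍ[ℝ]) :
    LV p (a, b) = cE.symm ((a : ℍ[ℝ]) * (cE p).1 + (cE p).1 * star b, (cE p).2 * star b) := rfl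

lemma hasFDerivAt_actV (p : HH) :
    HasFDerivAt (fun q : ℂ × ℍ[ℝ] => actV q.1 q.2 p) (LV p) (1, 1) := by
  have h1 : HasFDerivAt (fun q : ℂ × ℍ[ℝ] => cC q.1)
      (cC ∘L ContinuousLinearMap.fst ℝ ℂ ℍ[ℝ]) (1, 1) :=
    (cC ∘L ContinuousLinearMap.fst ℝ ℂ ℍ[ℝ]).hasFDerivAt
  have h2 : HasFDerivAt (fun q : ℂ × ℍ[ℝ] => cS q.2)
      (cS ∘L ContinuousLinearMap.snd ℝ ℂ ℍ[ℝ]) (1, 1) :=
    (cS ∘L ContinuousLinearMap.snd ℝ ℂ ℍ[ℝ]).hasFDerivAt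
  have h3 := (h1.mul_const' (cE p).1).mul' h2
  have h4 := h2.const_mul (cE p).2
  have h5 := (cE.symm : ℍ[ℝ] × ℍ[ℝ] →L[ℝ] HH).hasFDerivAt.comp
    ((1, 1) : ℂ × ℍ[ℝ]) (h3.prodMk h4)
  refine h5.congr_fderiv (ContinuousLinearMap.ext fun v => ?_)
  obtain ⟨a, b⟩ := v
  change cE.symm ((cC 1 * (cE p).1) * cS b + cC a * (cE p).1 * cS 1, (cE p).2 * cS b) =
    cE.symm ((a : ℍ[ℝ]) * (cE p).1 + (cE p).1 * star b, (cE p).2 * star b)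
  rw [cC_apply, cC_apply, cS_apply, cS_apply, star_one, mul_one, Quaternion.coeComplex_one,
    one_mul, add_comm]

/-- The differential of the inclusion of the group at `1`. -/
lemma hasMFDerivAt_incG : HasMFDerivAt IGG 𝓘(ℝ, ℂ × ℍ[ℝ]) incG (1 : GG)
    (((DD (E := ℂ) (n := 1) (1 : S1)) ∘L ContinuousLinearMap.fst ℝ (EuclideanSpace ℝ (Fin 1))
      (EuclideanSpace ℝ (Fin 3))).prod
    ((DD (E := ℍ[ℝ]) (n := 3) (1 : S3)) ∘L ContinuousLinearMap.snd ℝ (EuclideanSpace ℝ (Fin 1))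
      (EuclideanSpace ℝ (Fin 3)))) := by
  have h1 : HasMFDerivAt (𝓡 1) 𝓘(ℝ, ℂ) ((↑) : S1 → ℂ) (1 : S1) (DD (E := ℂ) (n := 1) (1 : S1)) :=
    ((contMDiff_coe_sphere (m := 1) (1 : S1)).mdifferentiableAt one_ne_zero).hasMFDerivAt
  have h2 : HasMFDerivAt (𝓡 3) 𝓘(ℝ, ℍ[ℝ]) ((↑) : S3 → ℍ[ℝ]) (1 : S3)
      (DD (E := ℍ[ℝ]) (n := 3) (1 : S3)) :=
    ((contMDiff_coe_sphere (m := 1) (1 : S3)).mdifferentiableAt one_ne_zero).hasMFDerivAt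
  have h3 := HasMFDerivAt.comp (1 : GG) h1 (hasMFDerivAt_fst (I := 𝓡 1) (I' := 𝓡 3) (1 : GG))
  have h4 := HasMFDerivAt.comp (1 : GG) h2 (hasMFDerivAt_snd (I := 𝓡 1) (I' := 𝓡 3) (1 : GG))
  exact ⟨h3.1.prodMk h4.1, h3.2.prodMk h4.2⟩

/-- The differential of the orbit map, in ambient coordinates. -/
lemma DD_orbit (p : S7) (a : EuclideanSpace ℝ (Fin 1)) (b : EuclideanSpace ℝ (Fin 3)) :
    DD (E := HH) (n := 7) ((1 : GG) • p)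
      (mfderiv IGG (𝓡 7) (fun g : GG => g • p) (1 : GG) (a, b)) =
      LV (p : HH) (DD (E := ℂ) (n := 1) (1 : S1) a, DD (E := ℍ[ℝ]) (n := 3) (1 : S3) b) := by
  have h1 : HasMFDerivAt 𝓘(ℝ, ℂ × ℍ[ℝ]) 𝓘(ℝ, HH) (fun q : ℂ × ℍ[ℝ] => actV q.1 q.2 (p : HH))
      (incG (1 : GG)) (LV (p : HH)) := by
    have e : incG (1 : GG) = (1, 1) := rfl
    rw [e]
    exact (hasFDerivAt_actV (p : HH)).hasMFDerivAt
  have h2 := HasMFDerivAt.comp (1 : GG) h1 hasMFDerivAt_incG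
  have ho : MDifferentiableAt IGG (𝓡 7) (fun g : GG => g • p) (1 : GG) := by
    have h := contMDiff_act.comp (contMDiff_id.prodMk (contMDiff_const (c := p)) :
      ContMDiff IGG (IGG.prod (𝓡 7)) ∞ (fun g : GG => (g, p)))
    exact (h 1).mdifferentiableAt (by simp)
  have hι : HasMFDerivAt (𝓡 7) 𝓘(ℝ, HH) ((↑) : S7 → HH) ((1 : GG) • p)
      (DD (E := HH) (n := 7) ((1 : GG) • p)) :=
    ((contMDiff_coe_sphere (m := 1) _).mdifferentiableAt one_ne_zero).hasMFDerivAt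
  have h3 := HasMFDerivAt.comp (1 : GG) hι ho.hasMFDerivAt
  have h4 := hasMFDerivAt_unique h3 h2
  exact congrArg (fun L : EuclideanSpace ℝ (Fin 1) × EuclideanSpace ℝ (Fin 3) →L[ℝ] HH =>
    L (a, b)) h4

end

end Pool.Agent.H65.GManifold
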