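import Pool.Agent.H65.GManifold.OrbitDim
import Pool.Agent.H65.GManifold.Defs

set_option autoImplicit false

/-!
# The orbits of the action of `S¹ × S³` on `S⁷`
-/

namespace Pool.Agent.H65.GManifold

open Bundle Manifold Set Filter Metric Module MulAction
open scoped ContDiff Manifold Topology Quaternion RealInnerProductSpace

noncomputable section

attribute [local instance] act

/-- The differential of the orbit map at `1`, as a linear map of Euclidean spaces. -/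
def orbD (p : S7) : (EuclideanSpace ℝ (Fin 1) × EuclideanSpace ℝ (Fin 3)) →ₗ[ℝ]
    EuclideanSpace ℝ (Fin 7) :=
  (mfderiv IGG (𝓡 7) (fun g : GG => g • p) (1 : GG)).toLinearMap

lemma orbitDim_eq (p : S7) :
    orbitDim IGG (𝓡 7) GG p = finrank ℝ (LinearMap.range (orbD p)) := rfl

lemma DD_orbD (p : S7) (a : EuclideanSpace ℝ (Fin 1)) (b : EuclideanSpace ℝ (Fin 3)) :
    DD (E := HH) (n := 7) ((1 : GG) • p) (orbD p (a, b)) =
      cE.symm (((DD (E := ℂ) (n := 1) (1 : S1) a : ℂ) : ℍ[ℝ]) * (p : HH).fst +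
        (p : HH).fst * star (DD (E := ℍ[ℝ]) (n := 3) (1 : S3) b),
        (p : HH).snd * star (DD (E := ℍ[ℝ]) (n := 3) (1 : S3) b)) :=
  DD_orbit p a b

lemma finrank_EGG :
    finrank ℝ (EuclideanSpace ℝ (Fin 1) × EuclideanSpace ℝ (Fin 3)) = 4 := by
  rw [finrank_prod, finrank_euclideanSpace, finrank_euclideanSpace]
  simp

/-- Off the two special orbits, the orbits have dimension `4`. -/
lemma orbitDim_generic {p : S7} (h1 : (p : HH).fst ≠ 0) (h2 : (p : HH).snd ≠ 0) :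
    orbitDim IGG (𝓡 7) GG p = 4 := by
  rw [orbitDim_eq, LinearMap.finrank_range_of_inj, finrank_EGG]
  rw [← LinearMap.ker_eq_bot, LinearMap.ker_eq_bot']
  rintro ⟨a, b⟩ hab
  have h := DD_orbD p a b
  rw [hab] at h
  have h0 : DD (E := HH) (n := 7) ((1 : GG) • p) (0 : EuclideanSpace ℝ (Fin 7)) = 0 :=
    map_zero (DD (E := HH) (n := 7) ((1 : GG) • p))
  rw [h0] at h
  have h3 := (cE.symm.map_eq_zero_iff).1 h.symm
  rw [Prod.mk_eq_zero] at h3
  obtain ⟨h4, h5⟩ := h3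
  have h6 : star (DD (E := ℍ[ℝ]) (n := 3) (1 : S3) b) = 0 :=
    (mul_eq_zero.1 h5).resolve_left h2
  rw [h6, mul_zero, add_zero] at h4
  have h7 : ((DD (E := ℂ) (n := 1) (1 : S1) a : ℂ) : ℍ[ℝ]) = 0 :=
    (mul_eq_zero.1 h4).resolve_right h1
  have h8 : DD (E := ℂ) (n := 1) (1 : S1) a = 0 := by
    have e1 := congrArg (fun q : ℍ[ℝ] => q.re) h7
    have e2 := congrArg (fun q : ℍ[ℝ] => q.imI) h7
    apply Complex.ext
    · simpa using e1
    · simpa using e2
  have ha : a = 0 := DD_injective (E := ℂ) (n := 1) (1 : S1) (h8.trans (map_zero _).symm)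
  have hb : b = 0 := DD_injective (E := ℍ[ℝ]) (n := 3) (1 : S3)
    ((star_eq_zero.1 h6).trans (map_zero _).symm)
  rw [ha, hb]
  rfl

lemma orbitDim_lt_of_ker {p : S7} (v : EuclideanSpace ℝ (Fin 1) × EuclideanSpace ℝ (Fin 3))
    (hv : v ≠ 0) (h : orbD p v = 0) : orbitDim IGG (𝓡 7) GG p < 4 := by
  rw [orbitDim_eq]
  have h1 := LinearMap.finrank_range_add_finrank_ker (orbD p)
  rw [finrank_EGG] at h1
  have h2 : 0 < finrank ℝ (LinearMap.ker (orbD p)) := by
    rw [Module.finrank_pos_iff_exists_ne_zero]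
    exact ⟨⟨v, h⟩, fun h' => hv (congrArg Subtype.val h')⟩
  omega

/-- A nonzero tangent vector of the circle at `1`. -/
lemma exists_tangent_S1 : ∃ a : EuclideanSpace ℝ (Fin 1),
    DD (E := ℂ) (n := 1) (1 : S1) a = Complex.I := by
  apply DD_surj (E := ℂ) (n := 1) (1 : S1)
  change ⟪(1 : ℂ), Complex.I⟫ = 0
  simp [Complex.inner]

lemma exists_tangent_S3 {w : ℍ[ℝ]} (hw : w.re = 0) : ∃ b : EuclideanSpace ℝ (Fin 3),
    DD (E := ℍ[ℝ]) (n := 3) (1 : S3) b = w := by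
  apply DD_surj (E := ℍ[ℝ]) (n := 3) (1 : S3)
  change ⟪(1 : ℍ[ℝ]), w⟫ = 0
  rw [Quaternion.inner_def]
  simp [hw]

lemma orbitDim_fst_zero {p : S7} (h1 : (p : HH).fst = 0) :
    orbitDim IGG (𝓡 7) GG p < 4 := by
  obtain ⟨a, ha⟩ := exists_tangent_S1
  refine orbitDim_lt_of_ker (a, 0) ?_ ?_
  · intro h
    have : a = 0 := congrArg Prod.fst h
    rw [this] at ha
    have h0 : DD (E := ℂ) (n := 1) (1 : S1) (0 : EuclideanSpace ℝ (Fin 1)) = 0 :=
      map_zero (DD (E := ℂ) (n := 1) (1 : S1))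
    rw [h0] at ha
    exact Complex.I_ne_zero ha.symm
  · apply DD_injective (E := HH) (n := 7) ((1 : GG) • p)
    rw [DD_orbD, h1]
    have h0 : DD (E := ℍ[ℝ]) (n := 3) (1 : S3) (0 : EuclideanSpace ℝ (Fin 3)) = 0 :=
      map_zero (DD (E := ℍ[ℝ]) (n := 3) (1 : S3))
    rw [h0, star_zero, mul_zero, mul_zero, mul_zero, add_zero]
    rw [show ((0 : ℍ[ℝ]), (0 : ℍ[ℝ])) = 0 from rfl, map_zero]
    exact (map_zero (DD (E := HH) (n := 7) ((1 : GG) • p))).symm

lemma orbitDim_snd_zero {p : S7} (h2 : (p : HH).snd = 0) :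
    orbitDim IGG (𝓡 7) GG p < 4 := by
  obtain ⟨a, ha⟩ := exists_tangent_S1
  have h1 : (p : HH).fst ≠ 0 := by
    intro h1
    have := norm_sq_HH (p : HH)
    rw [h1, h2, norm_eq_of_mem_sphere] at this
    simp at this
  have hre : ((p : HH).fst⁻¹ * ((Complex.I : ℂ) : ℍ[ℝ]) * (p : HH).fst).re = 0 := by
    rw [Quaternion.inv_def, smul_mul_assoc, smul_mul_assoc, Quaternion.re_smul]
    have : (star (p : HH).fst * ((Complex.I : ℂ) : ℍ[ℝ]) * (p : HH).fst).re = 0 := by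
      simp [Quaternion.re_mul, Quaternion.imI_mul, Quaternion.imJ_mul, Quaternion.imK_mul]
      ring
    rw [this, smul_zero]
  obtain ⟨b, hb⟩ := exists_tangent_S3 hre
  refine orbitDim_lt_of_ker (a, b) ?_ ?_
  · intro h
    have : a = 0 := congrArg Prod.fst h
    rw [this] at ha
    have h0 : DD (E := ℂ) (n := 1) (1 : S1) (0 : EuclideanSpace ℝ (Fin 1)) = 0 :=
      map_zero (DD (E := ℂ) (n := 1) (1 : S1))
    rw [h0] at ha
    exact Complex.I_ne_zero ha.symm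
  · apply DD_injective (E := HH) (n := 7) ((1 : GG) • p)
    rw [DD_orbD, ha, hb, h2, zero_mul]
    have hs : star ((p : HH).fst⁻¹ * ((Complex.I : ℂ) : ℍ[ℝ]) * (p : HH).fst) =
        -((p : HH).fst⁻¹ * ((Complex.I : ℂ) : ℍ[ℝ]) * (p : HH).fst) := by
      rw [Quaternion.star_eq_neg]
      exact hre
    rw [hs, mul_neg, ← mul_assoc, ← mul_assoc, mul_inv_cancel₀ h1, one_mul, add_neg_cancel]
    rw [show ((0 : ℍ[ℝ]), (0 : ℍ[ℝ])) = 0 from rfl, map_zero]
    exact (map_zero (DD (E := HH) (n := 7) ((1 : GG) • p))).symm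

end

end Pool.Agent.H65.GManifold
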