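import Pool.Agent.H65.GManifold.SphereLC

set_option autoImplicit false

/-!
# The diameter of the round sphere
-/

namespace Pool.Agent.H65.GManifold

open Bundle Manifold VectorField Set Filter Metric Module MeasureTheory
open scoped ContDiff Manifold Topology RealInnerProductSpace ENNReal

noncomputable section

variable {E : Type*} [NormedAddCommGroup E] [InnerProductSpace ℝ E] {n : ℕ}
  [Fact (finrank ℝ E = n + 1)]

/-- Two points of the sphere are joined by an arc of a great circle. -/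
lemma exists_arc (hn : 1 ≤ n) (x y : sphere (0 : E) 1) : ∃ (u : E) (θ : ℝ), ‖u‖ = 1 ∧
    ⟪(x : E), u⟫ = 0 ∧ 0 ≤ θ ∧ θ ≤ Real.pi ∧ (y : E) = Real.cos θ • (x : E) + Real.sin θ • u := by
  have hx : ⟪(x : E), (x : E)⟫ = 1 := inner_self_sphere x
  have hy : ⟪(y : E), (y : E)⟫ = 1 := inner_self_sphere y
  have hxy := abs_real_inner_le_norm (x : E) (y : E)
  rw [norm_eq_of_mem_sphere, norm_eq_of_mem_sphere, one_mul, abs_le] at hxy
  set r := ⟪(x : E), (y : E)⟫ with hr
  set w : E := (y : E) - r • (x : E) with hw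
  have hxw : ⟪(x : E), w⟫ = 0 := by
    rw [hw, inner_sub_right, inner_smul_right, hx, ← hr]
    ring
  have hww : ‖w‖ = Real.sqrt (1 - r ^ 2) := by
    rw [norm_eq_sqrt_real_inner]
    congr 1
    rw [hw, inner_sub_left, inner_sub_right, inner_sub_right, inner_smul_left, inner_smul_left,
      inner_smul_right, inner_smul_right, hx, hy, real_inner_comm (x : E) (y : E), ← hr]
    simp
    ring
  have hsin : Real.sin (Real.arccos r) = ‖w‖ := by rw [Real.sin_arccos, hww]
  have hcos : Real.cos (Real.arccos r) = r := Real.cos_arccos hxy.1 hxy.2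
  have hu : ∃ u : E, ‖u‖ = 1 ∧ ⟪(x : E), u⟫ = 0 ∧ w = ‖w‖ • u := by
    by_cases h : w = 0
    · have : FiniteDimensional ℝ E := FiniteDimensional.of_fact_finrank_eq_succ n
      have hx0 : (x : E) ≠ 0 := ne_zero_of_mem_unit_sphere x
      have hf : finrank ℝ (ℝ ∙ (x : E))ᗮ = n := Submodule.finrank_orthogonal_span_singleton hx0
      have : Nontrivial (ℝ ∙ (x : E))ᗮ := by
        apply nontrivial_of_finrank_pos (R := ℝ)
        omega
      obtain ⟨⟨v, hv⟩, hv0⟩ := exists_ne (0 : (ℝ ∙ (x : E))ᗮ)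
      have hv0' : v ≠ 0 := by
        intro h
        exact hv0 (Subtype.ext h)
      refine ⟨(‖v‖⁻¹) • v, ?_, ?_, ?_⟩
      · rw [norm_smul, norm_inv, norm_norm, inv_mul_cancel₀ (norm_ne_zero_iff.2 hv0')]
      · rw [inner_smul_right, Submodule.mem_orthogonal_singleton_iff_inner_right.1 hv, mul_zero]
      · rw [h]
        simp
    · refine ⟨(‖w‖⁻¹) • w, ?_, ?_, ?_⟩
      · rw [norm_smul, norm_inv, norm_norm, inv_mul_cancel₀ (norm_ne_zero_iff.2 h)]
      · rw [inner_smul_right, hxw, mul_zero]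
      · rw [smul_smul, mul_inv_cancel₀ (norm_ne_zero_iff.2 h), one_smul]
  obtain ⟨u, hu1, hu2, hu3⟩ := hu
  refine ⟨u, Real.arccos r, hu1, hu2, Real.arccos_nonneg r, Real.arccos_le_pi r, ?_⟩
  rw [hcos, hsin, ← hu3, hw]
  abel

/-- The great circle through `x` in the direction `u`. -/
def circ (x : sphere (0 : E) 1) (u : E) (t : ℝ) : E := Real.cos t • (x : E) + Real.sin t • u

lemma circ_mem {x : sphere (0 : E) 1} {u : E} (hu : ‖u‖ = 1) (hxu : ⟪(x : E), u⟫ = 0) (t : ℝ) :
    circ x u t ∈ sphere (0 : E) 1 := by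
  rw [mem_sphere_zero_iff_norm, norm_eq_sqrt_real_inner, Real.sqrt_eq_one]
  unfold circ
  rw [inner_add_left, inner_add_right, inner_add_right, inner_smul_left, inner_smul_left,
    inner_smul_left, inner_smul_left, inner_smul_right, inner_smul_right, inner_smul_right,
    inner_smul_right, hxu, real_inner_comm (x : E) u, hxu, inner_self_sphere, real_inner_self_eq_norm_sq, hu]
  simp
  nlinarith [Real.sin_sq_add_cos_sq t]

lemma hasDerivAt_circ (x : sphere (0 : E) 1) (u : E) (t : ℝ) :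
    HasDerivAt (circ x u) (-Real.sin t • (x : E) + Real.cos t • u) t := by
  unfold circ
  exact ((Real.hasDerivAt_cos t).smul_const _).add ((Real.hasDerivAt_sin t).smul_const _)

lemma norm_deriv_circ {x : sphere (0 : E) 1} {u : E} (hu : ‖u‖ = 1) (hxu : ⟪(x : E), u⟫ = 0)
    (t : ℝ) : ‖-Real.sin t • (x : E) + Real.cos t • u‖ = 1 := by
  rw [norm_eq_sqrt_real_inner, Real.sqrt_eq_one]
  rw [inner_add_left, inner_add_right, inner_add_right, inner_smul_left, inner_smul_left,
    inner_smul_left, inner_smul_left, inner_smul_right, inner_smul_right, inner_smul_right,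
    inner_smul_right, hxu, real_inner_comm (x : E) u, hxu, inner_self_sphere, real_inner_self_eq_norm_sq, hu]
  simp
  nlinarith [Real.sin_sq_add_cos_sq t]

/-- The great circle as a curve in the sphere. -/
def circS {x : sphere (0 : E) 1} {u : E} (hu : ‖u‖ = 1) (hxu : ⟪(x : E), u⟫ = 0) :
    ℝ → sphere (0 : E) 1 := Set.codRestrict (circ x u) _ (circ_mem hu hxu)

lemma contDiff_circ (x : sphere (0 : E) 1) (u : E) : ContDiff ℝ ∞ (circ x u) := by
  unfold circ
  fun_prop

lemma contMDiff_circS {x : sphere (0 : E) 1} {u : E} (hu : ‖u‖ = 1) (hxu : ⟪(x : E), u⟫ = 0) :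
    ContMDiff 𝓘(ℝ, ℝ) (𝓡 n) ∞ (circS hu hxu) :=
  ContMDiff.codRestrict_sphere (contDiff_circ x u).contMDiff (circ_mem hu hxu)

lemma DD_mfderiv_circS {x : sphere (0 : E) 1} {u : E} (hu : ‖u‖ = 1) (hxu : ⟪(x : E), u⟫ = 0)
    (t : ℝ) : DD (n := n) (circS hu hxu t) (mfderiv 𝓘(ℝ, ℝ) (𝓡 n) (circS hu hxu) t (1 : ℝ)) =
      -Real.sin t • (x : E) + Real.cos t • u := by
  have hι : MDifferentiableAt (𝓡 n) 𝓘(ℝ, E) ((↑) : sphere (0 : E) 1 → E) (circS hu hxu t) :=
    (contMDiff_coe_sphere (m := 1) _).mdifferentiableAt one_ne_zero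
  have hc : MDifferentiableAt 𝓘(ℝ, ℝ) (𝓡 n) (circS hu hxu) t :=
    (contMDiff_circS hu hxu t).mdifferentiableAt (by simp)
  have h := mfderiv_comp t hι hc
  have h1 : (((↑) : sphere (0 : E) 1 → E) ∘ (circS hu hxu)) = circ x u := rfl
  rw [h1, mfderiv_eq_fderiv] at h
  have h2 := congrArg (fun L : ℝ →L[ℝ] E => L 1) h
  have h3 : fderiv ℝ (circ x u) t 1 = -Real.sin t • (x : E) + Real.cos t • u := by
    rw [(hasDerivAt_circ x u t).hasFDerivAt.fderiv]
    simp
  rw [← h3]
  exact h2.symm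

/-- The diameter of the scaled round sphere. -/
theorem diameterLE_gSph (hn : 1 ≤ n) (c : ℝ) (hc : 0 < c) (d : ℝ) (hd : c * Real.pi ≤ d) :
    DiameterLE (gSph (E := E) (n := n) c hc) (ENNReal.ofReal d) := by
  unfold DiameterLE
  let _ : RiemannianBundle (fun x : sphere (0 : E) 1 => TangentSpace (𝓡 n) x) :=
    ⟨(gSph (E := E) (n := n) c hc).toRiemannianMetric⟩
  intro x y
  obtain ⟨u, θ, hu, hxu, hθ0, hθπ, hy⟩ := exists_arc hn x y
  have h0 : circS hu hxu 0 = x := by
    apply Subtype.ext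
    change circ x u 0 = x
    simp [circ]
  have h1 : circS hu hxu θ = y := by
    apply Subtype.ext
    exact hy.symm
  have hle : riemannianEDist (𝓡 n) x y ≤ pathELength (𝓡 n) (circS hu hxu) 0 θ :=
    riemannianEDist_le_pathELength
      (((contMDiff_circS hu hxu).of_le (by norm_cast)).contMDiffOn) h0 h1 hθ0
  refine hle.trans ?_
  rw [pathELength_eq_lintegral_mfderiv_Icc]
  have hnorm : ∀ t : ℝ, ‖mfderiv 𝓘(ℝ, ℝ) (𝓡 n) (circS hu hxu) t (1 : ℝ)‖ₑ = ENNReal.ofReal c := by
    intro t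
    have hv : ∀ v : TangentSpace (𝓡 n) (circS hu hxu t), ‖DD (circS hu hxu t) v‖ = 1 →
        ‖v‖ₑ = ENNReal.ofReal c := by
      intro v hv
      rw [← ofReal_norm, norm_eq_sqrt_real_inner]
      have e : inner ℝ v v = c ^ 2 * ‖DD (circS hu hxu t) v‖ ^ 2 := gForm_self c _ v
      rw [e, hv, one_pow, mul_one, Real.sqrt_sq hc.le]
    refine hv _ ?_
    rw [DD_mfderiv_circS, norm_deriv_circ hu hxu]
  refine le_trans (le_of_eq (lintegral_congr (fun t => hnorm t))) ?_
  rw [setLIntegral_const, Real.volume_Icc, ← ENNReal.ofReal_mul hc.le]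
  apply ENNReal.ofReal_le_ofReal
  nlinarith

end

end Pool.Agent.H65.GManifold
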