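import Pool.Agent.H65.GManifold.SphereCurv

set_option autoImplicit false

/-!
# Levi-Civita connection and curvature of the round sphere
-/

namespace Pool.Agent.H65.GManifold

open Bundle Manifold VectorField Set Filter Metric Module
open scoped ContDiff Manifold Topology RealInnerProductSpace

noncomputable section

variable {E : Type*} [NormedAddCommGroup E] [InnerProductSpace ℝ E] {n : ℕ}
  [Fact (finrank ℝ E = n + 1)]

omit [Fact (finrank ℝ E = n + 1)] in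
lemma differentiableAt_chart {F : Type*} [NormedAddCommGroup F] [NormedSpace ℝ F]
    {M : Type*} [TopologicalSpace M] [ChartedSpace (EuclideanSpace ℝ (Fin n)) M]
    {f : M → F} {x : M}
    (hf : MDifferentiableAt (𝓡 n) 𝓘(ℝ, F) f x) :
    DifferentiableAt ℝ (f ∘ (extChartAt (𝓡 n) x).symm) (extChartAt (𝓡 n) x x) := by
  have h := ((mdifferentiableAt_iff _ _).1 hf).2
  rw [(𝓡 n).range_eq_univ, differentiableWithinAt_univ] at h
  exact h

/-- The derivative of an inner product of `E`-valued functions. -/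
lemma mvfderiv_inner {f g : sphere (0 : E) 1 → E} {x : sphere (0 : E) 1}
    (hf : MDifferentiableAt (𝓡 n) 𝓘(ℝ, E) f x) (hg : MDifferentiableAt (𝓡 n) 𝓘(ℝ, E) g x)
    (v : TangentSpace (𝓡 n) x) :
    MDifferentiableAt (𝓡 n) 𝓘(ℝ, ℝ) (fun y => ⟪f y, g y⟫) x ∧
    mvfderiv (𝓡 n) (fun y => ⟪f y, g y⟫) x v =
      ⟪mvfderiv (𝓡 n) f x v, g x⟫ + ⟪f x, mvfderiv (𝓡 n) g x v⟫ := by
  have hf' := differentiableAt_chart hf
  have hg' := differentiableAt_chart hg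
  have hfg : MDifferentiableAt (𝓡 n) 𝓘(ℝ, ℝ) (fun y => ⟪f y, g y⟫) x := by
    rw [mdifferentiableAt_iff]
    refine ⟨hf.continuousAt.inner hg.continuousAt, ?_⟩
    exact (hf'.inner ℝ hg').differentiableWithinAt
  refine ⟨hfg, ?_⟩
  rw [mvfderiv_eq_chart hfg, mvfderiv_eq_chart hf, mvfderiv_eq_chart hg]
  have h := fderiv_inner_apply ℝ hf' hg' v
  have e1 : (f ∘ (extChartAt (𝓡 n) x).symm) (extChartAt (𝓡 n) x x) = f x := by
    simp
  have e2 : (g ∘ (extChartAt (𝓡 n) x).symm) (extChartAt (𝓡 n) x x) = g x := by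
    simp
  rw [e1, e2] at h
  rw [add_comm]
  exact h

/-- The derivative of `⟨ss σ y, y⟩ = 0`. -/
lemma inner_deriv_ss {σ : ∀ x : sphere (0 : E) 1, TangentSpace (𝓡 n) x} {x : sphere (0 : E) 1}
    (hσ : MDiffAt (T% σ) x) (v : TangentSpace (𝓡 n) x) :
    ⟪(x : E), mvfderiv (𝓡 n) (ss σ) x v⟫ = -⟪ss σ x, DD x v⟫ := by
  have hι : MDifferentiableAt (𝓡 n) 𝓘(ℝ, E) ((↑) : sphere (0 : E) 1 → E) x :=
    (contMDiff_coe_sphere (m := 1) x).mdifferentiableAt one_ne_zero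
  have h := (mvfderiv_inner hι (mdiffAt_ss hσ) v).2
  have h0 : (fun y : sphere (0 : E) 1 => ⟪(y : E), ss σ y⟫) = fun _ => 0 := by
    funext y
    exact inner_ss σ y
  rw [h0, mvfderiv_const] at h
  have h' : (0 : ℝ) = ⟪DD x v, ss σ x⟫ + ⟪(x : E), mvfderiv (𝓡 n) (ss σ) x v⟫ := h
  rw [real_inner_comm] at h'
  linarith

/-- The covariant derivative in terms of the ambient derivative. -/
lemma DD_cov {σ : ∀ x : sphere (0 : E) 1, TangentSpace (𝓡 n) x} {x : sphere (0 : E) 1}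
    (hσ : MDiffAt (T% σ) x) (v : TangentSpace (𝓡 n) x) :
    DD x (covSph σ x v) = mvfderiv (𝓡 n) (ss σ) x v + ⟪ss σ x, DD x v⟫ • (x : E) := by
  have h : DD x (covSph σ x v) = DD x (LL x (mvfderiv (𝓡 n) (ss σ) x v)) := rfl
  rw [h, DD_LL, inner_deriv_ss hσ, neg_smul, sub_neg_eq_add]

/-- Without differentiability assumption: the tangential component. -/
lemma inner_DD_cov (σ τ : ∀ x : sphere (0 : E) 1, TangentSpace (𝓡 n) x)
    (x : sphere (0 : E) 1) (v : TangentSpace (𝓡 n) x) :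
    ⟪DD x (covSph σ x v), ss τ x⟫ = ⟪mvfderiv (𝓡 n) (ss σ) x v, ss τ x⟫ := by
  have h : DD x (covSph σ x v) = DD x (LL x (mvfderiv (𝓡 n) (ss σ) x v)) := rfl
  rw [h, DD_LL, inner_sub_left, inner_smul_left, inner_ss]
  simp

theorem isLeviCivita_covSph (c : ℝ) (hc : 0 < c) :
    IsLeviCivita (gSph (E := E) (n := n) c hc) covSph where
  metric X Y Z x hX hY hZ := by
    have h : (fun y => (gSph (E := E) (n := n) c hc).inner y (Y y) (Z y)) =
        fun y => c ^ 2 * ⟪ss Y y, ss Z y⟫ := rfl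
    rw [h]
    have h1 := mvfderiv_inner (mdiffAt_ss hY) (mdiffAt_ss hZ) (X x)
    have h2 : mvfderiv (𝓡 n) (fun y => c ^ 2 * ⟪ss Y y, ss Z y⟫) x =
        c ^ 2 • mvfderiv (𝓡 n) (fun y => ⟪ss Y y, ss Z y⟫) x := by
      have h3 := mvfderiv_fun_mul (I := 𝓡 n) (x := x)
        (mdifferentiableAt_const (c := c ^ 2) (I' := 𝓘(ℝ, ℝ)) (M' := ℝ)) h1.1
      rw [h3, mvfderiv_const]
      simp
    rw [h2]
    change c ^ 2 * mvfderiv (𝓡 n) (fun y => ⟪ss Y y, ss Z y⟫) x (X x) = _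
    rw [h1.2]
    change _ = c ^ 2 * ⟪DD x (covSph Y x (X x)), ss Z x⟫ +
      c ^ 2 * ⟪ss Y x, DD x (covSph Z x (X x))⟫
    have e1 : ⟪ss Y x, DD x (covSph Z x (X x))⟫ = ⟪DD x (covSph Z x (X x)), ss Y x⟫ :=
      real_inner_comm _ _
    have e2 : ⟪ss Y x, mvfderiv (𝓡 n) (ss Z) x (X x)⟫ =
        ⟪mvfderiv (𝓡 n) (ss Z) x (X x), ss Y x⟫ := real_inner_comm _ _
    rw [e1, e2, inner_DD_cov, inner_DD_cov]
    ring
  torsion_free X Y x hX hY := by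
    apply DD_injective (n := n) x
    rw [map_sub, DD_cov hX, DD_cov hY]
    have h := mvfderiv_mlieBracket (I := 𝓡 n) (f := ((↑) : sphere (0 : E) 1 → E))
      (contMDiff_coe_sphere (m := 2) x) hX hY
    change _ = mvfderiv (𝓡 n) ((↑) : sphere (0 : E) 1 → E) x (mlieBracket (𝓡 n) X Y x)
    rw [h]
    have e1 : ⟪ss Y x, DD x (X x)⟫ = ⟪ss X x, DD x (Y x)⟫ := real_inner_comm _ _
    rw [e1]
    change mvfderiv (𝓡 n) (ss Y) x (X x) + ⟪ss X x, DD x (Y x)⟫ • (x : E) -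
      (mvfderiv (𝓡 n) (ss X) x (Y x) + ⟪ss X x, DD x (Y x)⟫ • (x : E)) =
      mvfderiv (𝓡 n) (ss Y) x (X x) - mvfderiv (𝓡 n) (ss X) x (Y x)
    abel

/-- Smooth vector fields give smooth `E`-valued functions. -/
lemma contMDiff_ss {σ : ∀ x : sphere (0 : E) 1, TangentSpace (𝓡 n) x}
    (hσ : ContMDiff (𝓡 n) (𝓡 n).tangent ∞ (T% σ)) : ContMDiff (𝓡 n) 𝓘(ℝ, E) ∞ (ss σ) := by
  have h1 : ContMDiff (𝓡 n).tangent 𝓘(ℝ, E).tangent ∞
      (tangentMap (𝓡 n) 𝓘(ℝ, E) ((↑) : sphere (0 : E) 1 → E)) :=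
    (contMDiff_coe_sphere (m := ∞)).contMDiff_tangentMap (by simp)
  have h2 := (contMDiff_snd_tangentBundle_modelSpace E 𝓘(ℝ, E) (n := ∞)).comp (h1.comp hσ)
  exact h2

/-- The Gauss equation for the round sphere. -/
theorem inner_curvature {X Y : ∀ x : sphere (0 : E) 1, TangentSpace (𝓡 n) x}
    (hX : ContMDiff (𝓡 n) (𝓡 n).tangent ∞ (T% X)) (hY : ContMDiff (𝓡 n) (𝓡 n).tangent ∞ (T% Y))
    (x : sphere (0 : E) 1) :
    ⟪DD x (curvature covSph X Y Y x), ss X x⟫ =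
      ‖ss X x‖ ^ 2 * ‖ss Y x‖ ^ 2 - ⟪ss X x, ss Y x⟫ ^ 2 := by
  have hXx : MDiffAt (T% X) x := (hX x).mdifferentiableAt (by simp)
  have hYx : MDiffAt (T% Y) x := (hY x).mdifferentiableAt (by simp)
  have hsX := contMDiff_ss hX
  have hsY := contMDiff_ss hY
  have hι : MDifferentiableAt (𝓡 n) 𝓘(ℝ, E) ((↑) : sphere (0 : E) 1 → E) x :=
    (contMDiff_coe_sphere (m := 1) x).mdifferentiableAt one_ne_zero
  -- the second derivative terms
  have hcomm := mvfderiv_mlieBracket (I := 𝓡 n) (f := ss Y)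
    ((hsY x).of_le (by norm_cast)) hXx hYx
  have hdY := mdifferentiableAt_deriv_along (I := 𝓡 n) (f := ss Y)
    ((hsY x).of_le (by norm_cast)) hYx
  have hdX := mdifferentiableAt_deriv_along (I := 𝓡 n) (f := ss Y)
    ((hsY x).of_le (by norm_cast)) hXx
  -- the covariant derivatives as `E`-valued functions
  have key : ∀ (V : ∀ x : sphere (0 : E) 1, TangentSpace (𝓡 n) x)
      (_ : ContMDiff (𝓡 n) (𝓡 n).tangent ∞ (T% V)) (w : TangentSpace (𝓡 n) x),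
      ⟪mvfderiv (𝓡 n) (ss (fun y => covSph Y y (V y))) x w, ss X x⟫ =
        ⟪mvfderiv (𝓡 n) (fun y => mvfderiv (𝓡 n) (ss Y) y (V y)) x w, ss X x⟫ +
        ⟪ss Y x, ss V x⟫ * ⟪DD x w, ss X x⟫ := by
    intro V hV w
    have hVx : MDiffAt (T% V) x := (hV x).mdifferentiableAt (by simp)
    have hd := (mdifferentiableAt_deriv_along (I := 𝓡 n) (f := ss Y)
      ((hsY x).of_le (by norm_cast)) hVx).1
    have hfun : ss (fun y => covSph Y y (V y)) =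
        (fun y => mvfderiv (𝓡 n) (ss Y) y (V y)) +
          (fun y => ⟪ss Y y, ss V y⟫) • (fun y : sphere (0 : E) 1 => (y : E)) := by
      funext y
      exact DD_cov ((hY y).mdifferentiableAt (by simp)) (V y)
    have hin := (mvfderiv_inner (mdiffAt_ss hYx) (mdiffAt_ss hVx) w).1
    rw [hfun, mvfderiv_add hd (hin.smul hι), mvfderiv_smul hin hι]
    change ⟪mvfderiv (𝓡 n) (fun y => mvfderiv (𝓡 n) (ss Y) y (V y)) x w +
      (⟪ss Y x, ss V x⟫ • DD x w +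
        mvfderiv (𝓡 n) (fun y => ⟪ss Y y, ss V y⟫) x w • (x : E)), ss X x⟫ = _
    rw [inner_add_left, inner_add_left, inner_smul_left, inner_smul_left, inner_ss]
    simp
  have k1 := key Y hY (X x)
  have k2 := key X hX (Y x)
  have hsplit : ⟪DD x (curvature covSph X Y Y x), ss X x⟫ =
      ⟪mvfderiv (𝓡 n) (ss (fun y => covSph Y y (Y y))) x (X x), ss X x⟫ -
      ⟪mvfderiv (𝓡 n) (ss (fun y => covSph Y y (X y))) x (Y x), ss X x⟫ -
      ⟪mvfderiv (𝓡 n) (ss Y) x (mlieBracket (𝓡 n) X Y x), ss X x⟫ := by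
    unfold curvature
    rw [map_sub, map_sub, inner_sub_left, inner_sub_left, inner_DD_cov, inner_DD_cov,
      inner_DD_cov]
  rw [hsplit, k1, k2, hcomm, inner_sub_left]
  have e1 : ⟪DD x (X x), ss X x⟫ = ‖ss X x‖ ^ 2 := real_inner_self_eq_norm_sq _
  have e2 : ⟪ss Y x, ss Y x⟫ = ‖ss Y x‖ ^ 2 := real_inner_self_eq_norm_sq _
  have e3 : ⟪DD x (Y x), ss X x⟫ = ⟪ss X x, ss Y x⟫ := real_inner_comm _ _
  have e4 : ⟪ss Y x, ss X x⟫ = ⟪ss X x, ss Y x⟫ := real_inner_comm _ _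
  rw [e1, e2, e3, e4]
  ring

/-- The round metric, with lengths scaled by `c`, has sectional curvature `1 / c ^ 2`, so
`sec ≥ k` for all `k ≤ 1 / c ^ 2`. -/
theorem sectionalCurvatureGE_gSph (c : ℝ) (hc : 0 < c) {k : ℝ} (hk : k * c ^ 2 ≤ 1) :
    SectionalCurvatureGE (gSph (E := E) (n := n) c hc) k := by
  refine ⟨covSph, isLeviCivita_covSph c hc, fun X Y hX hY x => ?_⟩
  have h := inner_curvature hX hY x
  change k * (c ^ 2 * ⟪ss X x, ss X x⟫ * (c ^ 2 * ⟪ss Y x, ss Y x⟫) -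
    (c ^ 2 * ⟪ss X x, ss Y x⟫) ^ 2) ≤ c ^ 2 * ⟪DD x (curvature covSph X Y Y x), ss X x⟫
  rw [h, real_inner_self_eq_norm_sq, real_inner_self_eq_norm_sq]
  have hCS : ⟪ss X x, ss Y x⟫ ^ 2 ≤ ‖ss X x‖ ^ 2 * ‖ss Y x‖ ^ 2 := by
    have := abs_real_inner_le_norm (ss X x) (ss Y x)
    rw [← mul_pow, ← sq_abs]
    exact pow_le_pow_left₀ (abs_nonneg _) this 2
  have h1 : 0 ≤ c ^ 2 * (‖ss X x‖ ^ 2 * ‖ss Y x‖ ^ 2 - ⟪ss X x, ss Y x⟫ ^ 2) :=
    mul_nonneg (sq_nonneg c) (by linarith)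
  have e : k * (c ^ 2 * ‖ss X x‖ ^ 2 * (c ^ 2 * ‖ss Y x‖ ^ 2) -
      (c ^ 2 * ⟪ss X x, ss Y x⟫) ^ 2) =
      (k * c ^ 2) * (c ^ 2 * (‖ss X x‖ ^ 2 * ‖ss Y x‖ ^ 2 - ⟪ss X x, ss Y x⟫ ^ 2)) := by ring
  rw [e]
  exact mul_le_of_le_one_left h1 hk

end

end Pool.Agent.H65.GManifold
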