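import Pool.Agent.H65.GManifold.Orbits

set_option autoImplicit false

/-!
# Orbit types of the action of `S¹ × S³` on `S⁷`
-/

namespace Pool.Agent.H65.GManifold

open Bundle Manifold Set Filter Metric Module MulAction
open scoped ContDiff Manifold Topology Quaternion RealInnerProductSpace

noncomputable section

attribute [local instance] act

instance connectedS7 : ConnectedSpace S7 := by
  have h : IsConnected (sphere (0 : HH) 1) := by
    apply isConnected_sphere _ _ zero_le_one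
    have h1 : Module.finrank ℝ HH = 7 + 1 := factHH.out
    rw [← Module.finrank_eq_rank ℝ HH, h1]
    norm_num
  exact isConnected_iff_connectedSpace.1 h

/-- The point `(0, 1)`. -/
def px : S7 := ⟨WithLp.toLp 2 (0, 1), by
  rw [mem_sphere_zero_iff_norm]
  have h : ‖WithLp.toLp 2 ((0 : ℍ[ℝ]), (1 : ℍ[ℝ]))‖ ^ 2 = ‖(0 : ℍ[ℝ])‖ ^ 2 + ‖(1 : ℍ[ℝ])‖ ^ 2 :=
    norm_sq_HH (WithLp.toLp 2 ((0 : ℍ[ℝ]), (1 : ℍ[ℝ])))
  rw [norm_zero, norm_one] at h
  nlinarith [norm_nonneg (WithLp.toLp 2 ((0 : ℍ[ℝ]), (1 : ℍ[ℝ])))]⟩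

/-- The point `(1, 0)`. -/
def py : S7 := ⟨WithLp.toLp 2 (1, 0), by
  rw [mem_sphere_zero_iff_norm]
  have h : ‖WithLp.toLp 2 ((1 : ℍ[ℝ]), (0 : ℍ[ℝ]))‖ ^ 2 = ‖(1 : ℍ[ℝ])‖ ^ 2 + ‖(0 : ℍ[ℝ])‖ ^ 2 :=
    norm_sq_HH (WithLp.toLp 2 ((1 : ℍ[ℝ]), (0 : ℍ[ℝ])))
  rw [norm_zero, norm_one] at h
  nlinarith [norm_nonneg (WithLp.toLp 2 ((1 : ℍ[ℝ]), (0 : ℍ[ℝ])))]⟩

lemma px_fst : (px : HH).fst = 0 := rfl
lemma px_snd : (px : HH).snd = 1 := rfl
lemma py_fst : (py : HH).fst = 1 := rfl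
lemma py_snd : (py : HH).snd = 0 := rfl

/-- A point with trivial isotropy group. -/
def pz : S7 := ⟨WithLp.toLp 2 ((3 / 5 : ℝ), (4 / 5 : ℝ)), by
  rw [mem_sphere_zero_iff_norm]
  have h : ‖WithLp.toLp 2 (((3 / 5 : ℝ) : ℍ[ℝ]), ((4 / 5 : ℝ) : ℍ[ℝ]))‖ ^ 2 =
      ‖((3 / 5 : ℝ) : ℍ[ℝ])‖ ^ 2 + ‖((4 / 5 : ℝ) : ℍ[ℝ])‖ ^ 2 :=
    norm_sq_HH (WithLp.toLp 2 (((3 / 5 : ℝ) : ℍ[ℝ]), ((4 / 5 : ℝ) : ℍ[ℝ])))
  rw [Quaternion.norm_coe, Quaternion.norm_coe, Real.norm_eq_abs, Real.norm_eq_abs,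
    abs_of_pos (by norm_num), abs_of_pos (by norm_num)] at h
  nlinarith [norm_nonneg (WithLp.toLp 2 (((3 / 5 : ℝ) : ℍ[ℝ]), ((4 / 5 : ℝ) : ℍ[ℝ])))]⟩

lemma pz_fst : (pz : HH).fst ≠ 0 := by
  change ((3 / 5 : ℝ) : ℍ[ℝ]) ≠ ((0 : ℝ) : ℍ[ℝ])
  exact Quaternion.coe_injective.ne (by norm_num)

lemma pz_snd : (pz : HH).snd ≠ 0 := by
  change ((4 / 5 : ℝ) : ℍ[ℝ]) ≠ ((0 : ℝ) : ℍ[ℝ])
  exact Quaternion.coe_injective.ne (by norm_num)

/-- The action is effective. -/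
instance faithfulAct : FaithfulSMul GG S7 where
  eq_of_smul_eq_smul {g h} hgh := by
    have h1 : h⁻¹ * g ∈ stabilizer GG pz := by
      rw [mem_stabilizer_iff, mul_smul, hgh pz, inv_smul_smul]
    rw [stabilizer_generic pz_fst pz_snd, Subgroup.mem_bot] at h1
    exact (inv_mul_eq_one.1 h1).symm

/-- The points `i` and `j` of the group of unit quaternions. -/
def uq (w : ℍ[ℝ]) (hw : ‖w‖ = 1) : S3 := ⟨w, mem_sphere_zero_iff_norm.2 hw⟩

lemma norm_eq_one_of {w : ℍ[ℝ]} (h : w.re ^ 2 + w.imI ^ 2 + w.imJ ^ 2 + w.imK ^ 2 = 1) :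
    ‖w‖ = 1 := by
  have h1 : ‖w‖ * ‖w‖ = 1 := by
    rw [← Quaternion.normSq_eq_norm_mul_self, Quaternion.normSq_def', h]
  nlinarith [norm_nonneg w]

/-- The isotropy groups on the orbit `q₁ = 0` are normal. -/
lemma normal_stabilizer {p : S7} (h1 : (p : HH).fst = 0) : (stabilizer GG p).Normal where
  conj_mem n hn g := by
    rw [mem_stabilizer_snd h1] at hn ⊢
    rw [Prod.snd_mul, Prod.snd_mul, hn, mul_one, Prod.snd_inv, mul_inv_cancel]

lemma norm_fst_of_snd {p : S7} (h2 : (p : HH).snd = 0) : ‖(p : HH).fst‖ = 1 := by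
  have h := norm_sq_HH (p : HH)
  rw [h2, norm_eq_of_mem_sphere, norm_zero] at h
  nlinarith [norm_nonneg (p : HH).fst]

lemma norm_snd_of_fst {p : S7} (h1 : (p : HH).fst = 0) : ‖(p : HH).snd‖ = 1 := by
  have h := norm_sq_HH (p : HH)
  rw [h1, norm_eq_of_mem_sphere, norm_zero] at h
  nlinarith [norm_nonneg (p : HH).snd]

/-- The isotropy groups on the orbit `q₂ = 0` are not normal. -/
lemma not_normal_stabilizer {p : S7} (h2 : (p : HH).snd = 0) :
    ¬ (stabilizer GG p).Normal := by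
  intro hn
  set q : ℍ[ℝ] := (p : HH).fst with hq
  have hq1 : ‖q‖ = 1 := norm_fst_of_snd h2
  have hq0 : q ≠ 0 := by
    intro h
    rw [h, norm_zero] at hq1
    exact zero_ne_one hq1
  have hI : ‖((Complex.I : ℂ) : ℍ[ℝ])‖ = 1 := by
    apply norm_eq_one_of
    simp
  set J : ℍ[ℝ] := ⟨0, 0, 1, 0⟩ with hJ
  have hJ1 : ‖J‖ = 1 := by
    apply norm_eq_one_of
    simp [hJ]
  let z : S1 := ⟨Complex.I, by
    rw [mem_sphere_zero_iff_norm, Complex.norm_I]⟩
  let u : S3 := uq (q⁻¹ * ((Complex.I : ℂ) : ℍ[ℝ]) * q) (by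
    rw [norm_mul, norm_mul, norm_inv, hq1, hI]
    norm_num)
  let w : S3 := uq (q⁻¹ * J * q) (by
    rw [norm_mul, norm_mul, norm_inv, hq1, hJ1]
    norm_num)
  have hz : ((z, u) : GG) ∈ stabilizer GG p := by
    rw [mem_stabilizer_fst h2]
    change ((Complex.I : ℂ) : ℍ[ℝ]) * q = q * (q⁻¹ * ((Complex.I : ℂ) : ℍ[ℝ]) * q)
    rw [← mul_assoc, ← mul_assoc, mul_inv_cancel₀ hq0, one_mul]
  have h3 := hn.conj_mem _ hz ((1, w) : GG)
  rw [mem_stabilizer_fst h2] at h3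
  have h4 : ((Complex.I : ℂ) : ℍ[ℝ]) * q =
      q * ((q⁻¹ * J * q) * (q⁻¹ * ((Complex.I : ℂ) : ℍ[ℝ]) * q) * star (q⁻¹ * J * q)) := by
    have e1 : ((((1, w) : GG) * (z, u) * ((1, w) : GG)⁻¹).1 : ℂ) = Complex.I := by
      change (((1 : S1) * z * (1 : S1)⁻¹ : S1) : ℂ) = Complex.I
      rw [one_mul, inv_one, mul_one]
    have e2 : ((((1, w) : GG) * (z, u) * ((1, w) : GG)⁻¹).2 : ℍ[ℝ]) =
        (q⁻¹ * J * q) * (q⁻¹ * ((Complex.I : ℂ) : ℍ[ℝ]) * q) * star (q⁻¹ * J * q) := by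
      change ((w * u * w⁻¹ : S3) : ℍ[ℝ]) = _
      rw [Metric.unitSphere.coe_mul, Metric.unitSphere.coe_mul, S3.coe_inv']
      rfl
    rw [← e2, ← e1]
    exact h3
  have hsq : star q = q⁻¹ := by
    rw [Quaternion.inv_def, Quaternion.normSq_eq_norm_mul_self, hq1]
    simp
  have hsqi : star q⁻¹ = q := by rw [← hsq, star_star]
  rw [star_mul, star_mul, hsq, hsqi] at h4
  have h5 : q * ((q⁻¹ * J * q) * (q⁻¹ * ((Complex.I : ℂ) : ℍ[ℝ]) * q) * (q⁻¹ * (star J * q))) =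
      (J * ((Complex.I : ℂ) : ℍ[ℝ]) * star J) * q := by
    have e : q * q⁻¹ = 1 := mul_inv_cancel₀ hq0
    calc q * ((q⁻¹ * J * q) * (q⁻¹ * ((Complex.I : ℂ) : ℍ[ℝ]) * q) * (q⁻¹ * (star J * q)))
        = (q * q⁻¹) * J * (q * q⁻¹) * ((Complex.I : ℂ) : ℍ[ℝ]) * (q * q⁻¹) * star J * q := by
          noncomm_ring
      _ = _ := by rw [e]; noncomm_ring
  rw [h5] at h4
  have h6 := mul_right_cancel₀ hq0 h4
  have h7 : (((Complex.I : ℂ) : ℍ[ℝ])).imI = (J * ((Complex.I : ℂ) : ℍ[ℝ]) * star J).imI :=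
    congrArg (fun q : ℍ[ℝ] => q.imI) h6
  have j0 : J.re = 0 := rfl
  have j1 : J.imI = 0 := rfl
  have j2 : J.imJ = 1 := rfl
  have j3 : J.imK = 0 := rfl
  rw [Quaternion.imI_mul, Quaternion.re_mul, Quaternion.imI_mul, Quaternion.imJ_mul,
    Quaternion.imK_mul, Quaternion.re_star, Quaternion.imI_star, Quaternion.imJ_star,
    Quaternion.imK_star, j0, j1, j2, j3] at h7
  simp at h7
  norm_num at h7

/-- The principal points are those with both quaternionic coordinates nonzero. -/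
lemma isPrincipal_iff (p : S7) :
    IsPrincipal GG p ↔ (p : HH).fst ≠ 0 ∧ (p : HH).snd ≠ 0 := by
  constructor
  · intro h
    have hbot : stabilizer GG p = ⊥ := by
      obtain ⟨g, hg⟩ := h pz
      have h1 : stabilizer GG (g • pz) = ⊥ := by
        rw [stabilizer_smul_eq_stabilizer_map_conj, stabilizer_generic pz_fst pz_snd,
          Subgroup.map_bot]
      rw [h1] at hg
      exact le_bot_iff.1 hg
    constructor
    · intro h1
      obtain ⟨z, hz⟩ : ∃ z : S1, z ≠ 1 := ⟨-1, by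
        intro h
        have h2 := congrArg (fun q : S1 => (q : ℂ).re) h
        change (-(1 : ℂ)).re = (1 : ℂ).re at h2
        simp at h2
        norm_num at h2⟩
      have h2 : ((z, 1) : GG) ∈ stabilizer GG p := (mem_stabilizer_snd h1 _).2 rfl
      rw [hbot, Subgroup.mem_bot] at h2
      exact hz (congrArg Prod.fst h2)
    · intro h2
      apply not_normal_stabilizer h2
      rw [hbot]
      infer_instance
  · rintro ⟨h1, h2⟩ y
    refine ⟨1, ?_⟩
    rw [stabilizer_generic h1 h2]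
    exact bot_le

lemma mem_orbit_px {p : S7} (h1 : (p : HH).fst = 0) : p ∈ orbit GG px := by
  have h2 := norm_snd_of_fst h1
  refine ⟨((1, uq (star (p : HH).snd) (by rw [norm_star, h2])) : GG), ?_⟩
  change ((1, uq (star (p : HH).snd) (by rw [norm_star, h2])) : GG) • px = p
  rw [smul_eq_iff, px_fst, px_snd, h1]
  constructor
  · simp
  · change 1 * star (star (p : HH).snd) = (p : HH).snd
    rw [star_star, one_mul]

lemma mem_orbit_py {p : S7} (h2 : (p : HH).snd = 0) : p ∈ orbit GG py := by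
  have h1 := norm_fst_of_snd h2
  refine ⟨((1, uq (star (p : HH).fst) (by rw [norm_star, h1])) : GG), ?_⟩
  change ((1, uq (star (p : HH).fst) (by rw [norm_star, h1])) : GG) • py = p
  rw [smul_eq_iff, py_fst, py_snd, h2]
  constructor
  · change (((1 : S1) : ℂ) : ℍ[ℝ]) * 1 * star (star (p : HH).fst) = (p : HH).fst
    rw [star_star]
    simp
  · simp

lemma not_exceptional {p : S7} (h : orbitDim IGG (𝓡 7) GG p < 4) :
    ¬ IsExceptional IGG (𝓡 7) GG p := by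
  rintro ⟨-, y, hy, h2⟩
  obtain ⟨h3, h4⟩ := (isPrincipal_iff y).1 hy
  rw [h2, orbitDim_generic h3 h4] at h
  exact lt_irrefl _ h

lemma isSingular_px : IsSingular IGG (𝓡 7) GG px :=
  ⟨fun h => ((isPrincipal_iff px).1 h).1 px_fst, not_exceptional (orbitDim_fst_zero px_fst)⟩

lemma isSingular_py : IsSingular IGG (𝓡 7) GG py :=
  ⟨fun h => ((isPrincipal_iff py).1 h).2 py_snd, not_exceptional (orbitDim_snd_zero py_snd)⟩

lemma mem_orbit_of_not_isPrincipal {p : S7} (h : ¬ IsPrincipal GG p) :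
    p ∈ orbit GG px ∨ p ∈ orbit GG py := by
  rw [isPrincipal_iff, not_and_or, not_not, not_not] at h
  rcases h with h | h
  · exact Or.inl (mem_orbit_px h)
  · exact Or.inr (mem_orbit_py h)

/-- No automorphism of `G` maps the isotropy group of `px` onto that of a point of the
orbit of `py`. -/
lemma not_map_stabilizer (φ : GG ≃* GG) (g : GG) :
    (stabilizer GG px).map φ.toMonoidHom ≠ stabilizer GG (g • py) := by
  intro h
  have h1 : (g • py : S7) ∈ orbit GG py := ⟨g, rfl⟩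
  have h2 : ((g • py : S7) : HH).snd = 0 := by
    rw [coe_smul, actV_snd, py_snd, zero_mul]
  apply not_normal_stabilizer h2
  rw [← h]
  exact (normal_stabilizer px_fst).map _ φ.surjective

end

end Pool.Agent.H65.GManifold
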